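import Mathlib

/-!
# MFLB.Chi : characters of `ℚ` with values in the units of the algebraic closure of `ZMod 2`
-/

set_option autoImplicit false

namespace MFLB

/-- The algebraic closure of the field with two elements. -/
abbrev Om : Type := AlgebraicClosure (ZMod 2)

theorem smul_surj (n : ℕ) (hn : n ≠ 0) :
    Function.Surjective (fun a : Additive Omˣ => n • a) := by
  intro a
  obtain ⟨z, hz⟩ := IsAlgClosed.exists_pow_nat_eq ((a.toMul : Omˣ) : Om) (Nat.pos_of_ne_zero hn)
  have hz0 : z ≠ 0 := by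
    intro h
    rw [h, zero_pow hn] at hz
    exact a.toMul.ne_zero hz.symm
  refine ⟨Additive.ofMul (Units.mk0 z hz0), ?_⟩
  show n • Additive.ofMul (Units.mk0 z hz0) = a
  rw [← ofMul_pow]
  apply Additive.toMul.injective
  apply Units.ext
  simpa using hz

noncomputable instance divUnits : DivisibleBy (Additive Omˣ) ℤ :=
  letI : DivisibleBy (Additive Omˣ) ℕ := divisibleByOfSMulRightSurj _ _
    (fun {n} hn => smul_surj n hn)
  AddGroup.divisibleByIntOfDivisibleByNat _

/-- A character of `ℚ` with a prescribed value. -/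
theorem exists_char (q : ℚ) (hq : q ≠ 0) (u : Omˣ) :
    ∃ χ : Multiplicative ℚ →* Omˣ, χ (Multiplicative.ofAdd q) = u := by
  set f : ℤ →+ ℚ := zmultiplesHom ℚ q with hf
  have hinj : Function.Injective f := by
    intro a b hab
    rw [hf] at hab
    simp only [zmultiplesHom_apply, zsmul_eq_mul] at hab
    exact_mod_cast mul_right_cancel₀ hq hab
  set g : ℤ →+ Additive Omˣ := zmultiplesHom (Additive Omˣ) (Additive.ofMul u) with hg
  obtain ⟨h, hh⟩ := (Module.Baer.of_divisible (Additive Omˣ)).extension_property_addMonoidHom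
    f hinj g
  refine ⟨⟨⟨fun x => (h x.toAdd).toMul, ?_⟩, ?_⟩, ?_⟩
  · simp
  · intro x y
    simp
  · show (h q).toMul = u
    have h1 : h (f 1) = g 1 := by rw [← hh]; rfl
    have h2 : f 1 = q := by simp [hf]
    have h3 : g 1 = Additive.ofMul u := by simp [hg]
    rw [h2, h3] at h1
    rw [h1]
    rfl

/-- A primitive cube root of unity. -/
theorem exists_zeta : ∃ z : Om, z ^ 2 + z + 1 = 0 := by
  obtain ⟨z, hz⟩ := IsAlgClosed.exists_root
    (Polynomial.X ^ 2 + Polynomial.X + 1 : Polynomial Om) (by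
      have : (Polynomial.X ^ 2 + Polynomial.X + 1 : Polynomial Om).degree = 2 := by
        compute_degree!
      rw [this]
      norm_num)
  refine ⟨z, ?_⟩
  simpa [Polynomial.IsRoot.def] using hz

theorem two_eq_zero : (2 : Om) = 0 := by
  have : CharP Om 2 := inferInstance
  exact_mod_cast CharP.cast_eq_zero Om 2

/-- There is a unit different from `1`. -/
theorem zeta_ne {z : Om} (hz : z ^ 2 + z + 1 = 0) : z ≠ 0 ∧ z ≠ 1 := by
  constructor
  · rintro rfl
    norm_num at hz
  · rintro rfl
    have : (1 : Om) = 0 := by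
      have h1 : (1 : Om) ^ 2 + 1 + 1 = 2 + 1 := by norm_num
      rw [h1, two_eq_zero, zero_add] at hz
      exact hz
    exact one_ne_zero this

/-- Separation of the points of `ℚ` by characters. -/
theorem exists_char_ne (q : ℚ) (hq : q ≠ 0) :
    ∃ χ : Multiplicative ℚ →* Omˣ, χ (Multiplicative.ofAdd q) ≠ 1 := by
  obtain ⟨z, hz⟩ := exists_zeta
  obtain ⟨h0, h1⟩ := zeta_ne hz
  obtain ⟨χ, hχ⟩ := exists_char q hq (Units.mk0 z h0)
  refine ⟨χ, ?_⟩
  rw [hχ]
  intro h
  apply h1
  have := congrArg Units.val h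
  simpa using this

end MFLB
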