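import Pool.Agent.MFLB.Grp
import Pool.Agent.MFLB.Chi

/-!
# MFLB.GG : the coefficient ring with the action of `ℚ ⋊ ℤ`
-/

set_option autoImplicit false

namespace MFLB

namespace GG

/-- The coefficient ring: exponents in `ℚ`. -/
abbrev Kr : Type := AddMonoidAlgebra Om ℚ

variable (χ : Multiplicative ℚ →* Omˣ)

/-- The images of the monomials. -/
noncomputable def mon (h : GG) : Multiplicative ℚ →* Kr where
  toFun x := AddMonoidAlgebra.single (x.toAdd / 3 ^ h.n)
    ((χ (Multiplicative.ofAdd (h.a * (x.toAdd / 3 ^ h.n))) : Omˣ) : Om)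
  map_one' := by
    simp [AddMonoidAlgebra.one_def]
  map_mul' x y := by
    rw [AddMonoidAlgebra.single_mul_single, ← Units.val_mul, ← map_mul, ← ofAdd_add, ← mul_add,
      ← add_div, toAdd_mul]

/-- The action on the coefficient ring. -/
noncomputable def act (h : GG) : Kr →ₐ[Om] Kr := AddMonoidAlgebra.lift Om Kr ℚ (mon χ h)

theorem act_single (h : GG) (q : ℚ) (c : Om) :
    act χ h (AddMonoidAlgebra.single q c) = AddMonoidAlgebra.single (q / 3 ^ h.n)
      (c * ((χ (Multiplicative.ofAdd (h.a * (q / 3 ^ h.n))) : Omˣ) : Om)) := by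
  unfold act
  rw [AddMonoidAlgebra.lift_single]
  show c • AddMonoidAlgebra.single _ _ = _
  rw [AddMonoidAlgebra.smul_single, smul_eq_mul]
  rfl

theorem act_one (x : Kr) : act χ 1 x = x := by
  induction x using AddMonoidAlgebra.induction with
  | zero => simp
  | single_add a b f _ _ ih =>
    rw [map_add, ih, act_single]
    simp [one_a, one_n]

theorem act_mul (h h' : GG) (x : Kr) : act χ (h * h') x = act χ h (act χ h' x) := by
  induction x using AddMonoidAlgebra.induction with
  | zero => simp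
  | single_add q c f _ _ ih =>
    rw [map_add, map_add, map_add, ih, act_single, act_single, act_single]
    congr 2
    · rw [mul_n, div_div, ← zpow_add₀ (by norm_num), add_comm]
    · rw [mul_assoc, ← Units.val_mul, ← map_mul, ← ofAdd_add]
      congr 4
      have h3 : (3 : ℚ) ^ h.n ≠ 0 := zpow_ne_zero _ (by norm_num)
      have h4 : (3 : ℚ) ^ h'.n ≠ 0 := zpow_ne_zero _ (by norm_num)
      rw [mul_a, mul_n, zpow_add₀ (by norm_num)]
      field_simp
      ring

/-- The action. -/
@[instance_reducible] noncomputable def inst : MulSemiringAction GG Kr where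
  smul h x := act χ h x
  one_smul x := act_one χ x
  mul_smul h h' x := act_mul χ h h' x
  smul_zero h := map_zero (act χ h)
  smul_add h x y := map_add (act χ h) x y
  smul_one h := map_one (act χ h)
  smul_mul h x y := map_mul (act χ h) x y

/-- Evaluation at `q`. -/
noncomputable def ev (q : ℚ) : (Multiplicative ℚ →* Omˣ) →* Om :=
  (Units.coeHom Om).comp (MonoidHom.eval (Multiplicative.ofAdd q))

theorem ev_apply (q : ℚ) (ψ : Multiplicative ℚ →* Omˣ) :
    ev q ψ = ((ψ (Multiplicative.ofAdd q) : Omˣ) : Om) := rfl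

theorem ev_injective : Function.Injective ev := by
  intro q q' h
  by_contra hne
  obtain ⟨ψ, hψ⟩ := exists_char_ne (q - q') (sub_ne_zero.mpr hne)
  apply hψ
  have h1 : ev q ψ = ev q' ψ := by rw [h]
  rw [ev_apply, ev_apply] at h1
  have h2 := Units.ext h1
  rw [ofAdd_sub, map_div, h2, div_self']

theorem separate (c : Kr) (hc : c ≠ 0) : ∃ π : Kr →+* Om, π c ≠ 0 := by
  by_contra hcon
  push Not at hcon
  apply hc
  have hli : LinearIndependent Om (fun q : ℚ => (ev q : (Multiplicative ℚ →* Omˣ) → Om)) :=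
    (linearIndependent_monoidHom (Multiplicative ℚ →* Omˣ) Om).comp ev ev_injective
  have h0 : Finsupp.linearCombination Om
      (fun q : ℚ => (ev q : (Multiplicative ℚ →* Omˣ) → Om)) c.coeff = 0 := by
    funext ψ
    have h1 := hcon ((AddMonoidAlgebra.lift Om Om ℚ ((Units.coeHom Om).comp ψ)) : Kr →+* Om)
    have h2 : (AddMonoidAlgebra.lift Om Om ℚ ((Units.coeHom Om).comp ψ)) c = 0 := h1
    rw [AddMonoidAlgebra.lift_apply] at h2
    rw [Finsupp.linearCombination_apply, Finsupp.sum, Finset.sum_apply]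
    rw [Finsupp.sum] at h2
    exact h2
  have h3 := linearIndependent_iff.mp hli c.coeff h0
  have h4 : c = AddMonoidAlgebra.ofCoeff c.coeff := rfl
  rw [h4, h3]
  rfl

end GG

open GG in
/-- LB-G: the labels. -/
theorem exists_labels : ∃ (G : Type) (_ : Group G) (_ : LinearOrder G) (k : Type) (_ : CommRing k)
    (_ : MulSemiringAction G k),
    IsDomain k ∧ CharP k 2 ∧ LeftInv G ∧ (∃ F : ℕ → Finset G, Folner F) ∧
    (∀ c : k, c ≠ 0 → ∃ π : k →+* AlgebraicClosure (ZMod 2), π c ≠ 0) ∧
    ∃ (θ θi ζ : k) (g s : G), θ * θi = 1 ∧ ζ ^ 2 + ζ + 1 = 0 ∧ (∀ h : G, h • ζ = ζ) ∧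
      g • θ = ζ * θ ∧ (s • θ) ^ 3 = θ := by
  obtain ⟨z, hz⟩ := exists_zeta
  obtain ⟨hz0, hz1⟩ := zeta_ne hz
  obtain ⟨χ, hχ⟩ := exists_char 1 one_ne_zero (Units.mk0 z hz0)
  refine ⟨GG, inferInstance, inferInstance, Kr, inferInstance, inst χ, inferInstance, ?_, leftInv,
    ⟨fun m => box m, folner⟩, separate, ?_⟩
  · exact charP_of_injective_algebraMap (FaithfulSMul.algebraMap_injective Om Kr) 2
  · refine ⟨AddMonoidAlgebra.single 1 1, AddMonoidAlgebra.single (-1) 1,
      algebraMap Om Kr z, ⟨1, 0⟩, ⟨0, 1⟩, ?_, ?_, ?_, ?_, ?_⟩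
    · rw [AddMonoidAlgebra.single_mul_single, AddMonoidAlgebra.one_def]
      norm_num
    · rw [← map_pow, ← map_add, ← map_one (algebraMap Om Kr), ← map_add, hz, map_zero]
    · intro h
      exact (act χ h).commutes z
    · show act χ ⟨1, 0⟩ (AddMonoidAlgebra.single 1 1) = _
      rw [act_single, Algebra.algebraMap_eq_smul_one, smul_mul_assoc,
        one_mul (AddMonoidAlgebra.single (1 : ℚ) (1 : Om)), AddMonoidAlgebra.smul_single]
      simp [hχ]
    · show (act χ ⟨0, 1⟩ (AddMonoidAlgebra.single 1 1)) ^ 3 = _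
      rw [act_single, AddMonoidAlgebra.single_pow]
      simp

end MFLB
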