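import Pool.Agent.MFLB.Alg

/-!
# MFLB.Indep : membership in `Cl` and independence of translates
-/

open Set

set_option linter.unusedSectionVars false

namespace MFLB

variable {k : Type*} {G : Type*} {r : ℕ} [CommRing k] [IsDomain k] [Group G] [LinearOrder G]
  [MulSemiringAction G k]

theorem mem_closure_of_adjoin {X : Set (PP k G r)} {a : PP k G r}
    (ha : a ∈ Algebra.adjoin k X) : a ∈ (MM k G r).closure X := by
  rw [mem_closure_iff]
  refine ⟨Polynomial.X - Polynomial.C a, Polynomial.X_sub_C_ne_zero a, ?_, by simp⟩
  intro j
  rw [Polynomial.coeff_sub, Polynomial.coeff_X, Polynomial.coeff_C]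
  split_ifs
  · exact sub_mem (one_mem _) ha
  · exact sub_mem (one_mem _) (zero_mem _)
  · exact sub_mem (zero_mem _) ha
  · exact sub_mem (zero_mem _) (zero_mem _)

/-- anything algebraic over finitely many translates of `S` is in `Cl S` -/
theorem mem_Cl_of_closure {S : Set (PP k G r)} {a : PP k G r} (K : Finset G)
    (ha : a ∈ (MM k G r).closure (tr (K : Set G) S)) : a ∈ Cl (MM k G r) G S :=
  ⟨K, (MM k G r).closure_subset_closure subset_union_left ha⟩

theorem mem_Cl_of_adjoin {S : Set (PP k G r)} {a : PP k G r} (K : Finset G)
    (ha : a ∈ Algebra.adjoin k (tr (K : Set G) S)) : a ∈ Cl (MM k G r) G S :=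
  mem_Cl_of_closure K (mem_closure_of_adjoin ha)

theorem ev_mem_adjoin {X : Set (PP k G r)} (x : Fin r × G → PP k G r)
    (hx : ∀ p, x p ∈ Algebra.adjoin k X) (a : PP k G r) :
    ev cc x a ∈ Algebra.adjoin k X := by
  have key : ∀ p : MvPolynomial (Fin r × G) k,
      MvPolynomial.eval₂ (cc : k →+* PP k G r) x p ∈ Algebra.adjoin k X := by
    intro p
    induction p using MvPolynomial.induction_on with
    | C c =>
      rw [MvPolynomial.eval₂_C]
      exact Subalgebra.algebraMap_mem _ c
    | add p q hp hq =>
      rw [MvPolynomial.eval₂_add]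
      exact add_mem hp hq
    | mul_X p i hp =>
      rw [MvPolynomial.eval₂_mul, MvPolynomial.eval₂_X]
      exact mul_mem hp (hx i)
  exact key a

open Classical in
/-- set one variable to zero -/
noncomputable def kill (j : Fin r × G) : PP k G r →+* PP k G r :=
  ev cc (fun l => if l = j then 0 else xx l.1 l.2)

theorem kill_cc (j : Fin r × G) (c : k) : kill j (cc c : PP k G r) = cc c := by
  unfold kill
  rw [ev_cc]

theorem kill_xx_self (i : Fin r) (s : G) : kill (i, s) (xx i s : PP k G r) = 0 := by
  unfold kill
  rw [ev_xx, if_pos rfl]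

theorem kill_xx_ne {j : Fin r × G} {i : Fin r} {s : G} (h : (i, s) ≠ j) :
    kill j (xx i s : PP k G r) = xx i s := by
  unfold kill
  rw [ev_xx, if_neg h]

/-- all the variables except `j` -/
def others (j : Fin r × G) : Set (PP k G r) := {a | ∃ l : Fin r × G, l ≠ j ∧ a = xx l.1 l.2}

theorem kill_mem_adjoin (j : Fin r × G) (a : PP k G r) :
    kill j a ∈ Algebra.adjoin k (others j : Set (PP k G r)) := by
  unfold kill
  apply ev_mem_adjoin
  intro p
  show (if p = j then (0 : PP k G r) else xx p.1 p.2) ∈ _
  split_ifs with h
  · exact zero_mem _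
  · exact Algebra.subset_adjoin ⟨p, h, rfl⟩

theorem xx_notMem_closure_others (j : Fin r × G) :
    (xx j.1 j.2 : PP k G r) ∉ (MM k G r).closure (others j) := by
  intro h
  have h1 : AlgebraicIndependent k (fun l : Fin r × G => (xx l.1 l.2 : PP k G r)) :=
    MvPolynomial.algebraicIndependent_X (Fin r × G) k
  have h2 := h1.transcendental_adjoin (s := {l | l ≠ j}) (i := j) (by simp)
  have h3 : (fun l : Fin r × G => (xx l.1 l.2 : PP k G r)) '' {l | l ≠ j} = others j := by
    ext a
    constructor
    · rintro ⟨l, hl, rfl⟩
      exact ⟨l, hl, rfl⟩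
    · rintro ⟨l, hl, rfl⟩
      exact ⟨l, hl, rfl⟩
  rw [h3] at h2
  apply h2
  rw [mem_closure_iff] at h
  obtain ⟨q, hq, hc, hqa⟩ := h
  have h4 : (MM k G r).closure (others j : Set (PP k G r)) =
      (Subalgebra.algebraicClosure (Algebra.adjoin k (others j : Set (PP k G r)))
        (PP k G r) : Set (PP k G r)) := by
    unfold MM
    exact AlgebraicIndependent.matroid_closure_eq
  have h5 : (xx j.1 j.2 : PP k G r) ∈ (MM k G r).closure (others j : Set (PP k G r)) := by
    rw [mem_closure_iff]
    exact ⟨q, hq, hc, hqa⟩
  rw [h4] at h5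
  exact (Subalgebra.mem_algebraicClosure _ _).1 h5

/-- an element involving the variable `j` is not algebraic over elements not involving it -/
theorem notMem_closure_of_kill {j : Fin r × G} {a : PP k G r} (ha : kill j a ≠ a)
    {X : Set (PP k G r)} (hX : ∀ x ∈ X, kill j x = x) : a ∉ (MM k G r).closure X := by
  intro h
  have hXo : X ⊆ (MM k G r).closure (others j) := by
    intro x hx
    apply mem_closure_of_adjoin
    rw [← hX x hx]
    exact kill_mem_adjoin j x
  have h1 : a ∈ (MM k G r).closure (others j) := by
    have := (MM k G r).closure_subset_closure hXo h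
    rwa [(MM k G r).closure_closure] at this
  -- the variable `j` is algebraic over `others j` and `a`
  have h2 : (xx j.1 j.2 : PP k G r) ∈ (MM k G r).closure (insert a (others j)) := by
    classical
    rw [mem_closure_iff]
    let ψ : PP k G r →+* Polynomial (PP k G r) :=
      ev (Polynomial.C.comp cc) (fun l => if l = j then Polynomial.X else Polynomial.C (xx l.1 l.2))
    have hev : ∀ b : PP k G r, (Polynomial.evalRingHom b).comp ψ =
        ev cc (fun l => if l = j then b else xx l.1 l.2) := by
      intro b
      apply PP_hom_ext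
      · intro c
        show Polynomial.eval b (ψ (cc c)) = _
        simp only [ψ]
        rw [ev_cc, ev_cc]
        simp
      · intro i s
        show Polynomial.eval b (ψ (xx i s)) = _
        simp only [ψ]
        rw [ev_xx, ev_xx]
        split_ifs <;> simp
    refine ⟨ψ a - Polynomial.C a, ?_, ?_, ?_⟩
    · intro h0
      have h3 := congrArg (Polynomial.eval 0) h0
      rw [Polynomial.eval_sub, Polynomial.eval_C, Polynomial.eval_zero, sub_eq_zero] at h3
      apply ha
      have h4 := RingHom.congr_fun (hev 0) a
      rw [RingHom.comp_apply] at h4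
      exact h4.symm.trans h3
    · intro m
      rw [Polynomial.coeff_sub]
      apply sub_mem
      · have key : ∀ p : MvPolynomial (Fin r × G) k, ∀ m : ℕ,
            (MvPolynomial.eval₂ (Polynomial.C.comp (cc : k →+* PP k G r))
              (fun l => if l = j then Polynomial.X else Polynomial.C (xx l.1 l.2)) p).coeff m ∈
              Algebra.adjoin k (insert a (others j)) := by
          intro p
          induction p using MvPolynomial.induction_on with
          | C c =>
            intro m
            rw [MvPolynomial.eval₂_C, RingHom.comp_apply, Polynomial.coeff_C]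
            split_ifs
            · exact Subalgebra.algebraMap_mem _ c
            · exact zero_mem _
          | add p q hp hq =>
            intro m
            rw [MvPolynomial.eval₂_add, Polynomial.coeff_add]
            exact add_mem (hp m) (hq m)
          | mul_X p i hp =>
            intro m
            rw [MvPolynomial.eval₂_mul, MvPolynomial.eval₂_X]
            split_ifs with hi
            · cases m with
              | zero => simp
              | succ m =>
                rw [Polynomial.coeff_mul_X]
                exact hp m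
            · rw [Polynomial.coeff_mul_C]
              exact mul_mem (hp m) (Algebra.subset_adjoin (Or.inr ⟨i, hi, rfl⟩))
        exact key a m
      · rw [Polynomial.coeff_C]
        split_ifs
        · exact Algebra.subset_adjoin (Or.inl rfl)
        · exact zero_mem _
    · rw [Polynomial.eval_sub, Polynomial.eval_C, sub_eq_zero]
      have h4 := RingHom.congr_fun (hev (xx j.1 j.2)) a
      rw [RingHom.comp_apply] at h4
      refine h4.trans ?_
      have h5 : (ev cc (fun l : Fin r × G => if l = j then xx j.1 j.2 else xx l.1 l.2) :
          PP k G r →+* PP k G r) = RingHom.id _ := by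
        apply PP_hom_ext
        · intro c
          rw [ev_cc]
          rfl
        · intro i s
          rw [ev_xx]
          split_ifs with hi
          · rw [← hi]
            rfl
          · rfl
      rw [h5]
      rfl
  apply xx_notMem_closure_others (k := k) j
  have h3 : insert a (others j) ⊆ (MM k G r).closure (others j) := by
    rw [insert_subset_iff]
    refine ⟨h1, (MM k G r).subset_closure _ (by rw [MM_E]; exact subset_univ _)⟩
  have h4 := (MM k G r).closure_subset_closure h3 h2
  rwa [(MM k G r).closure_closure] at h4

theorem kill_smul (h : G) (i : Fin r) (s : G) (a : PP k G r) :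
    kill (i, h * s) (h • a) = h • kill (i, s) a := by
  have h1 : (kill (i, h * s)).comp (act h) = (act h : PP k G r →+* PP k G r).comp (kill (i, s)) := by
    apply PP_hom_ext
    · intro c
      rw [RingHom.comp_apply, RingHom.comp_apply, act_cc, kill_cc, kill_cc, act_cc]
    · intro i' s'
      rw [RingHom.comp_apply, RingHom.comp_apply, act_xx]
      by_cases hh : (i', s') = (i, s)
      · rw [Prod.mk.injEq] at hh
        obtain ⟨rfl, rfl⟩ := hh
        rw [kill_xx_self, kill_xx_self, map_zero]
      · rw [kill_xx_ne hh, act_xx, kill_xx_ne]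
        intro h2
        apply hh
        rw [Prod.mk.injEq] at h2 ⊢
        exact ⟨h2.1, mul_left_cancel h2.2⟩
  have h2 := RingHom.congr_fun h1 a
  rw [RingHom.comp_apply, RingHom.comp_apply] at h2
  exact h2

/-- the variables involved in `a` -/
theorem exists_kill {a : PP k G r} (ha : a ∉ Set.range (cc : k →+* PP k G r)) :
    ∃ T : Finset (Fin r × G), T.Nonempty ∧ (∀ j ∈ T, kill j a ≠ a) ∧ ∀ j, kill j a ≠ a → j ∈ T := by
  classical
  let T := (MvPolynomial.vars (a : MvPolynomial (Fin r × G) k)).filter (fun j => kill j a ≠ a)
  have hfull : ∀ j, kill j a ≠ a → j ∈ MvPolynomial.vars (a : MvPolynomial (Fin r × G) k) := by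
    intro j hj
    by_contra hjv
    apply hj
    have h1 : (kill j : PP k G r →+* PP k G r) a = RingHom.id (PP k G r) a := by
      show MvPolynomial.eval₂Hom _ _ _ = _
      refine MvPolynomial.hom_congr_vars (f₁ := (kill j : PP k G r →+* PP k G r))
        (f₂ := RingHom.id (PP k G r)) (p₁ := a) (p₂ := a) ?_ ?_ rfl
      · ext c
        exact kill_cc j c
      · intro l hl _
        have hne : (l.1, l.2) ≠ j := by
          rintro rfl
          exact hjv hl
        exact kill_xx_ne hne
    exact h1
  refine ⟨T, ?_, ?_, ?_⟩
  · by_contra hT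
    rw [Finset.not_nonempty_iff_eq_empty] at hT
    apply ha
    have h1 : MvPolynomial.vars (a : MvPolynomial (Fin r × G) k) = ∅ := by
      rw [Finset.eq_empty_iff_forall_notMem]
      intro j hj
      have h2 : kill j a = a := by
        by_contra h3
        have : j ∈ T := Finset.mem_filter.2 ⟨hj, h3⟩
        rw [hT] at this
        simp at this
      have h3 : a ∈ Algebra.adjoin k (others j : Set (PP k G r)) := by
        rw [← h2]
        exact kill_mem_adjoin j a
      have h4 : (others j : Set (PP k G r)) =
          (MvPolynomial.X '' {l : Fin r × G | l ≠ j} : Set (MvPolynomial (Fin r × G) k)) := by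
        ext b
        constructor
        · rintro ⟨l, hl, rfl⟩
          exact ⟨l, hl, rfl⟩
        · rintro ⟨l, hl, rfl⟩
          exact ⟨l, hl, rfl⟩
      rw [h4] at h3
      have h5 : ((MvPolynomial.vars (a : MvPolynomial (Fin r × G) k) : Finset (Fin r × G)) :
          Set (Fin r × G)) ⊆ {l : Fin r × G | l ≠ j} :=
        MvPolynomial.mem_supported.1 h3
      exact h5 hj rfl
    obtain ⟨c, hc⟩ : ∃ c : k, (a : MvPolynomial (Fin r × G) k) = MvPolynomial.C c :=
      ⟨_, (MvPolynomial.vars_eq_empty_iff_eq_C.1 h1)⟩
    exact ⟨c, hc.symm⟩
  · intro j hj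
    exact (Finset.mem_filter.1 hj).2
  · intro j hj
    exact Finset.mem_filter.2 ⟨hfull j hj, hj⟩


/-- nonconstant elements have independent translates -/
theorem eRk_tr_singleton (hG : LeftInv G) {a : PP k G r}
    (ha : a ∉ Set.range (cc : k →+* PP k G r)) (J : Finset G) :
    (MM k G r).eRk (tr (J : Set G) {a}) = (J.card : ℕ∞) := by
  classical
  obtain ⟨T, hTne, hT1, hT2⟩ := exists_kill ha
  obtain ⟨j0, hj0, hmax⟩ := T.exists_max_image (fun j => j.2) hTne
  induction J using Finset.induction_on_max_value (fun h : G => h * j0.2) with
  | empty =>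
    have : tr ((∅ : Finset G) : Set G) {a} = ∅ := by
      ext b
      simp [tr]
    rw [this]
    simp
  | insert h J hJ hle ih =>
    have h0 : tr ((insert h J : Finset G) : Set G) {a} = insert (h • a) (tr (J : Set G) {a}) := by
      ext b
      constructor
      · rintro ⟨x, hx, u, hu, rfl⟩
        rw [Set.mem_singleton_iff] at hu
        subst hu
        rcases Finset.mem_insert.1 (Finset.mem_coe.1 hx) with rfl | hx
        · exact Or.inl rfl
        · exact Or.inr ⟨x, hx, u, rfl, rfl⟩
      · rintro (rfl | ⟨x, hx, u, hu, rfl⟩)
        · exact ⟨h, by simp, a, rfl, rfl⟩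
        · exact ⟨x, by simp [Finset.mem_coe.1 hx], u, hu, rfl⟩
    rw [h0, Finset.card_insert_of_notMem hJ]
    have h1 : h • a ∉ (MM k G r).closure (tr (J : Set G) {a}) := by
      apply notMem_closure_of_kill (j := (j0.1, h * j0.2))
      · rw [kill_smul]
        intro h2
        exact hT1 j0 hj0 (MulAction.injective h h2)
      · rintro x ⟨h', hh', u, hu, rfl⟩
        rw [Set.mem_singleton_iff] at hu
        subst hu
        have hlt : h' * j0.2 < h * j0.2 := by
          refine lt_of_le_of_ne (hle h' hh') ?_
          intro h2
          have := mul_right_cancel h2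
          subst this
          exact hJ hh'
        by_contra h3
        have h4 : kill (j0.1, h' * (h'⁻¹ * (h * j0.2))) (h' • u) ≠ h' • u := by
          rwa [mul_inv_cancel_left]
        rw [kill_smul] at h4
        have h5 : kill (j0.1, h'⁻¹ * (h * j0.2)) u ≠ u := by
          intro h6
          rw [h6] at h4
          exact h4 rfl
        have h6 := hmax _ (hT2 _ h5)
        have h7 := hG h'⁻¹ _ _ hlt
        rw [inv_mul_cancel_left] at h7
        exact absurd h6 (not_le.2 h7)
    rw [(MM k G r).eRk_insert_eq_add_one ⟨by rw [MM_E]; exact mem_univ _, h1⟩, ih]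
    push_cast
    rfl

end MFLB
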