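import Pool.Agent.MFLB.Main
import Pool.Agent.MFLB.Indep
import Pool.Agent.helper36.MFD.Geo

/-!
# MFLB.Sys : the rank system of a finite additive set of polynomials
-/

open Set Filter Topology

set_option linter.unusedSectionVars false

namespace MFLB

variable {k : Type} {G : Type} {r : ℕ} [CommRing k] [IsDomain k] [Group G] [LinearOrder G]
  [MulSemiringAction G k]

noncomputable instance instDecEqPP : DecidableEq (PP k G r) := Classical.decEq _

/-- ranks of sets of variables -/
theorem isRk_vars {F : ℕ → Finset G} (hF : Folner F) (T : Finset (Fin r)) :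
    IsRk (MM k G r) F ((fun i : Fin r => (xx i 1 : PP k G r)) '' (T : Set (Fin r))) T.card := by
  classical
  have key : ∀ I : Finset G,
      rkf (MM k G r) I ((fun i : Fin r => (xx i 1 : PP k G r)) '' (T : Set (Fin r))) =
        T.card * I.card := by
    intro I
    have hfin : ((fun i : Fin r => (xx i 1 : PP k G r)) '' (T : Set (Fin r))).Finite :=
      (T.finite_toSet).image _
    have h1 : tr (I : Set G) ((fun i : Fin r => (xx i 1 : PP k G r)) '' (T : Set (Fin r))) =
        (fun p : Fin r × G => (xx p.1 p.2 : PP k G r)) '' ((T ×ˢ I : Finset (Fin r × G)) :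
          Set (Fin r × G)) := by
      ext a
      constructor
      · rintro ⟨h, hh, _, ⟨i, hi, rfl⟩, rfl⟩
        refine ⟨(i, h), ?_, ?_⟩
        · rw [Finset.mem_coe, Finset.mem_product]
          exact ⟨hi, hh⟩
        · show (xx i h : PP k G r) = h • (xx i 1 : PP k G r)
          rw [smul_xx, mul_one]
      · rintro ⟨⟨i, h⟩, hp, rfl⟩
        rw [Finset.mem_coe, Finset.mem_product] at hp
        refine ⟨h, hp.2, xx i 1, ⟨i, hp.1, rfl⟩, ?_⟩
        show (xx i h : PP k G r) = h • (xx i 1 : PP k G r)
        rw [smul_xx, mul_one]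
    have hind : AlgebraicIndependent k (fun l : Fin r × G => (xx l.1 l.2 : PP k G r)) :=
      MvPolynomial.algebraicIndependent_X (Fin r × G) k
    have h2 : (MM k G r).Indep ((fun p : Fin r × G => (xx p.1 p.2 : PP k G r)) ''
        ((T ×ˢ I : Finset (Fin r × G)) : Set (Fin r × G))) := by
      have h3 : (MM k G r).Indep (Set.range (fun p : Fin r × G => (xx p.1 p.2 : PP k G r))) :=
        hind.to_subtype_range
      exact h3.subset (image_subset_range _ _)
    have h4 : ((rkf (MM k G r) I
        ((fun i : Fin r => (xx i 1 : PP k G r)) '' (T : Set (Fin r))) : ℕ) : ℕ∞) =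
        ((T.card * I.card : ℕ) : ℕ∞) := by
      rw [rkf_coe _ _ hfin, h1, h2.eRk_eq_encard, Set.InjOn.encard_image
        (hind.injective.injOn), Set.encard_coe_eq_coe_finsetCard, Finset.card_product]
    exact_mod_cast h4
  unfold IsRk
  have h0 : (fun m => (rkf (MM k G r) (F m)
      ((fun i : Fin r => (xx i 1 : PP k G r)) '' (T : Set (Fin r))) : ℝ) / ((F m).card : ℝ)) =
      fun _ => (T.card : ℝ) := by
    funext m
    have hpos : (0 : ℝ) < (F m).card := by
      exact_mod_cast (hF.1 m).card_pos
    rw [key (F m)]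
    push_cast
    field_simp
  rw [h0]
  exact tendsto_const_nhds

theorem isRk_single (hG : LeftInv G) {F : ℕ → Finset G} (hF : Folner F) {a : PP k G r}
    (ha : a ∉ Set.range (cc : k →+* PP k G r)) : IsRk (MM k G r) F {a} 1 := by
  unfold IsRk
  have h0 : (fun m => (rkf (MM k G r) (F m) {a} : ℝ) / ((F m).card : ℝ)) = fun _ => ((1 : ℕ) : ℝ) := by
    funext m
    have hpos : (0 : ℝ) < (F m).card := by
      exact_mod_cast (hF.1 m).card_pos
    have h1 : ((rkf (MM k G r) (F m) {a} : ℕ) : ℕ∞) = (((F m).card : ℕ) : ℕ∞) := by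
      rw [rkf_coe _ _ (Set.finite_singleton a), eRk_tr_singleton hG ha]
    have h2 : rkf (MM k G r) (F m) {a} = (F m).card := by exact_mod_cast h1
    rw [h2]
    push_cast
    field_simp
  rw [h0]
  exact tendsto_const_nhds

theorem mem_Cl_vars (a : PP k G r) :
    a ∈ Cl (MM k G r) G (Set.range (fun i : Fin r => (xx i 1 : PP k G r))) := by
  classical
  let K : Finset G := (MvPolynomial.vars (a : MvPolynomial (Fin r × G) k)).image Prod.snd
  apply mem_Cl_of_adjoin K
  have h1 : (a : MvPolynomial (Fin r × G) k) ∈ Algebra.adjoin k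
      (MvPolynomial.X '' ((MvPolynomial.vars (a : MvPolynomial (Fin r × G) k) :
        Finset (Fin r × G)) : Set (Fin r × G)) : Set (MvPolynomial (Fin r × G) k)) :=
    MvPolynomial.mem_supported_vars a
  refine Algebra.adjoin_mono ?_ h1
  rintro _ ⟨⟨i, h⟩, hl, rfl⟩
  refine ⟨h, ?_, xx i 1, ⟨i, rfl⟩, ?_⟩
  · exact Finset.mem_coe.2 (Finset.mem_image.2 ⟨(i, h), hl, rfl⟩)
  · show (xx i h : PP k G r) = h • (xx i 1 : PP k G r)
    rw [smul_xx, mul_one]

/-- the rank system on `E` -/
noncomputable def msys (hG : LeftInv G) (F : ℕ → Finset G) (hF : Folner F)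
    (E : Finset (PP k G r)) (hnc : ∀ v ∈ E, v ∉ Set.range (cc : k →+* PP k G r)) :
    Pool.Agent.helper36.MFD.RankSys E where
  rk S := drk (MM k G r) F (Subtype.val '' (S : Set E))
  rk_empty := by
    have h := (drk_spec (MM_E (k := k) (G := G) (r := r)) MM_equivar hG hF
      (S := (Subtype.val '' ((∅ : Finset E) : Set E)))
      (by simp)).unique (e := 0) (by simpa using isRk_empty _ F)
    exact h
  rk_insert_le v S := by
    rw [Finset.coe_insert, image_insert_eq]
    have hS : (Subtype.val '' (S : Set E)).Finite := (S.finite_toSet).image _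
    by_cases hv : (v : PP k G r) ∈ Cl (MM k G r) G (Subtype.val '' (S : Set E))
    · rw [drk_insert_dep (MM_E (k := k) (G := G) (r := r)) MM_equivar hG hF hS hv]
      omega
    · rw [drk_insert_indep (MM_E (k := k) (G := G) (r := r)) MM_equivar hG hF hS hv]
  rk_mono h := drk_mono (MM_E (k := k) (G := G) (r := r)) MM_equivar hG hF
    ((Finset.finite_toSet _).image _) (image_mono (by exact_mod_cast h))
  rk_submod S T := by
    rw [Finset.coe_union, Finset.coe_inter, image_union,
      image_inter Subtype.val_injective]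
    exact drk_submod (MM_E (k := k) (G := G) (r := r)) MM_equivar hG hF
      ((Finset.finite_toSet _).image _) ((Finset.finite_toSet _).image _)
  rk_single v := by
    rw [Finset.coe_singleton, image_singleton]
    exact (drk_spec (MM_E (k := k) (G := G) (r := r)) MM_equivar hG hF
      (Set.finite_singleton _)).unique (isRk_single hG hF (hnc v v.2))

theorem msys_cl (hG : LeftInv G) (F : ℕ → Finset G) (hF : Folner F)
    (E : Finset (PP k G r)) (hnc : ∀ v ∈ E, v ∉ Set.range (cc : k →+* PP k G r))
    (S : Finset E) (v : E) :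
    v ∈ (msys hG F hF E hnc).cl S ↔
      (v : PP k G r) ∈ Cl (MM k G r) G (Subtype.val '' (S : Set E)) := by
  classical
  rw [Pool.Agent.helper36.MFD.RankSys.mem_cl]
  unfold msys
  simp only
  rw [Finset.coe_insert, image_insert_eq]
  exact drk_mem_Cl_iff (MM_E (k := k) (G := G) (r := r)) MM_equivar hG hF ((S.finite_toSet).image _)

section

variable (hG : LeftInv G) (F : ℕ → Finset G) (hF : Folner F)
    (E : Finset (PP k G r)) (hnc : ∀ v ∈ E, v ∉ Set.range (cc : k →+* PP k G r))

/-- anything in the algebra generated by finitely many translates of `S` is in the closure -/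
theorem msys_mem_cl_of_adjoin (S : Finset E) (v : E) (K : Finset G)
    (h : (v : PP k G r) ∈ Algebra.adjoin k (tr (K : Set G) (Subtype.val '' (S : Set E)))) :
    v ∈ (msys hG F hF E hnc).cl S := by
  rw [msys_cl]
  exact mem_Cl_of_adjoin K h

theorem msys_sum (S : Finset E) (u v w : E) (hu : u ∈ (msys hG F hF E hnc).cl S)
    (hv : v ∈ (msys hG F hF E hnc).cl S) (hw : (w : PP k G r) = u + v) :
    w ∈ (msys hG F hF E hnc).cl S := by
  classical
  have h1 : w ∈ (msys hG F hF E hnc).cl {u, v} := by
    apply msys_mem_cl_of_adjoin hG F hF E hnc _ _ {1}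
    rw [hw]
    apply add_mem
    · apply Algebra.subset_adjoin
      exact ⟨1, by simp, u, ⟨u, by simp, rfl⟩, by simp⟩
    · apply Algebra.subset_adjoin
      exact ⟨1, by simp, v, ⟨v, by simp, rfl⟩, by simp⟩
  have h2 : ({u, v} : Finset E) ⊆ (msys hG F hF E hnc).cl S := by
    intro x hx
    rcases Finset.mem_insert.1 hx with rfl | hx
    · exact hu
    · rw [Finset.mem_singleton] at hx
      subst hx
      exact hv
  have h3 := (msys hG F hF E hnc).cl_mono h2 h1
  rwa [(msys hG F hF E hnc).cl_cl] at h3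

theorem msys_third [CharP k 2] (hadd : ∀ u ∈ E, ∀ v ∈ E, u ≠ v → u + v ∈ E) :
    (msys hG F hF E hnc).Third := by
  classical
  have h2 : ∀ a : PP k G r, a + a = 0 := by
    intro a
    have : (2 : PP k G r) = 0 := by
      have h3 : (cc (2 : k) : PP k G r) = 0 := by
        have : (2 : k) = 0 := by exact_mod_cast CharP.cast_eq_zero k 2
        rw [this, map_zero]
      rw [← h3, map_ofNat]
    rw [← two_mul, this, zero_mul]
  intro A x y hx hy
  have hxy : (x : PP k G r) ≠ y := by
    intro h
    apply hy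
    have : x = y := Subtype.ext h
    subst this
    exact (msys hG F hF E hnc).subset_cl _ (Finset.mem_insert_self _ _)
  let g : E := ⟨x + y, hadd x x.2 y y.2 hxy⟩
  have hx1 : x ∈ (msys hG F hF E hnc).cl (insert x (insert y A)) :=
    (msys hG F hF E hnc).subset_cl _ (Finset.mem_insert_self _ _)
  have hy1 : y ∈ (msys hG F hF E hnc).cl (insert x (insert y A)) :=
    (msys hG F hF E hnc).subset_cl _ (Finset.mem_insert_of_mem (Finset.mem_insert_self _ _))
  refine ⟨g, msys_sum hG F hF E hnc _ x y g hx1 hy1 rfl, ?_, ?_⟩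
  · intro hg
    apply hy
    refine msys_sum hG F hF E hnc _ x g y
      ((msys hG F hF E hnc).subset_cl _ (Finset.mem_insert_self _ _)) hg ?_
    show (y : PP k G r) = x + (x + y)
    rw [← add_assoc, h2, zero_add]
  · intro hg
    have hx2 : x ∈ (msys hG F hF E hnc).cl (insert y A) := by
      refine msys_sum hG F hF E hnc _ g y x hg
        ((msys hG F hF E hnc).subset_cl _ (Finset.mem_insert_self _ _)) ?_
      show (x : PP k G r) = (x + y) + y
      rw [add_assoc, h2, add_zero]
    exact hy ((msys hG F hF E hnc).exchange hx2 hx)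

variable (hx : ∀ i : Fin r, xx i 1 ∈ E)

theorem msys_rk_vars (T : Finset (Fin r)) :
    (msys hG F hF E hnc).rk (T.image (fun i => (⟨xx i 1, hx i⟩ : E))) = T.card := by
  have h1 : (Subtype.val '' ((T.image (fun i => (⟨xx i 1, hx i⟩ : E)) : Finset E) : Set E)) =
      ((fun i : Fin r => (xx i 1 : PP k G r)) '' (T : Set (Fin r))) := by
    rw [Finset.coe_image, image_image]
  show drk (MM k G r) F (Subtype.val '' ((T.image (fun i => (⟨xx i 1, hx i⟩ : E)) :
    Finset E) : Set E)) = T.card
  rw [h1]
  exact (drk_spec (MM_E (k := k) (G := G) (r := r)) MM_equivar hG hF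
      ((T.finite_toSet).image _)).unique (isRk_vars hF T)

theorem msys_cl_vars :
    (msys hG F hF E hnc).cl (Finset.univ.image (fun i => (⟨xx i 1, hx i⟩ : E))) =
      Finset.univ := by
  rw [Finset.eq_univ_iff_forall]
  intro v
  rw [msys_cl]
  have h1 : (Subtype.val '' ((Finset.univ.image (fun i => (⟨xx i 1, hx i⟩ : E)) :
      Finset E) : Set E)) = Set.range (fun i : Fin r => (xx i 1 : PP k G r)) := by
    rw [Finset.coe_image, image_image, Finset.coe_univ, image_univ]
  rw [h1]
  exact mem_Cl_vars _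

include hx in
theorem msys_rk_univ : (msys hG F hF E hnc).rk Finset.univ = r := by
  classical
  rw [← msys_cl_vars hG F hF E hnc hx, (msys hG F hF E hnc).rk_cl, msys_rk_vars]
  simp

include hx in
theorem msys_hyp [CharP k 2] (hadd : ∀ u ∈ E, ∀ v ∈ E, u ≠ v → u + v ∈ E) (i0 : Fin r) :
    ∃ H1 : Finset E, (msys hG F hF E hnc).IsFlat H1 ∧ H1 ≠ Finset.univ ∧
      (∀ x, x ∉ H1 → (msys hG F hF E hnc).cl (insert x H1) = Finset.univ) ∧
      (msys hG F hF E hnc).cl H1ᶜ = Finset.univ := by
  classical
  have h2 : ∀ a : PP k G r, a + a = 0 := by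
    intro a
    have : (2 : PP k G r) = 0 := by
      have h3 : (cc (2 : k) : PP k G r) = 0 := by
        have : (2 : k) = 0 := by exact_mod_cast CharP.cast_eq_zero k 2
        rw [this, map_zero]
      rw [← h3, map_ofNat]
    rw [← two_mul, this, zero_mul]
  set M := msys hG F hF E hnc with hM
  let X1 : Finset E := (Finset.univ.erase i0).image (fun i => (⟨xx i 1, hx i⟩ : E))
  let z : E := ⟨xx i0 1, hx i0⟩
  have hins : (Finset.univ.image (fun i => (⟨xx i 1, hx i⟩ : E)) : Finset E) = insert z X1 := by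
    rw [← Finset.insert_erase (Finset.mem_univ i0), Finset.image_insert]
  have hcl : M.cl (insert z X1) = Finset.univ := by
    rw [← hins]
    exact msys_cl_vars hG F hF E hnc hx
  have hz : z ∉ M.cl X1 := by
    intro h
    have h3 : M.rk (insert z X1) = M.rk X1 := by
      rwa [Pool.Agent.helper36.MFD.RankSys.mem_cl] at h
    rw [← hins] at h3
    have h4 : M.rk (Finset.univ.image (fun i => (⟨xx i 1, hx i⟩ : E))) = (Finset.univ : Finset (Fin r)).card :=
      msys_rk_vars hG F hF E hnc hx Finset.univ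
    have h5 : M.rk X1 = ((Finset.univ : Finset (Fin r)).erase i0).card :=
      msys_rk_vars hG F hF E hnc hx _
    rw [h4, h5, Finset.card_erase_of_mem (Finset.mem_univ _)] at h3
    have : 0 < (Finset.univ : Finset (Fin r)).card := Finset.card_pos.2 ⟨i0, Finset.mem_univ _⟩
    omega
  have hzc : z ∉ M.cl X1 := hz
  refine ⟨M.cl X1, M.isFlat_cl _, ?_, ?_, ?_⟩
  · intro h
    apply hz
    rw [h]
    exact Finset.mem_univ _
  · intro x hx'
    rw [M.cl_insert_cl]
    have h3 : x ∈ M.cl (insert z X1) := by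
      rw [hcl]
      exact Finset.mem_univ _
    rw [M.cl_insert_eq h3 hx', hcl]
  · rw [Finset.eq_univ_iff_forall]
    intro v
    have hzmem : z ∈ M.cl (M.cl X1)ᶜ := M.subset_cl _ (by simpa using hz)
    by_cases hv : v ∈ M.cl X1
    · have hne : (z : PP k G r) ≠ v := by
        intro h
        apply hz
        rw [show z = v from Subtype.ext h]
        exact hv
      let g : E := ⟨z + v, hadd z z.2 v v.2 hne⟩
      have hg : g ∉ M.cl X1 := by
        intro hg
        apply hz
        refine msys_sum hG F hF E hnc _ g v z hg hv ?_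
        show (z : PP k G r) = (z + v) + v
        rw [add_assoc, h2, add_zero]
      have hgmem : g ∈ M.cl (M.cl X1)ᶜ := M.subset_cl _ (by simpa using hg)
      refine msys_sum hG F hF E hnc _ z g v hzmem hgmem ?_
      show (v : PP k G r) = z + (z + v)
      rw [← add_assoc, h2, zero_add]
    · exact M.subset_cl _ (by simpa using hv)

include hx in
/-- the lower bound in terms of the rank system -/
theorem msys_lower (hSp : ∀ c : k, c ≠ 0 → ∃ π : k →+* AlgebraicClosure (ZMod 2), π c ≠ 0)
    (ε : ℝ) (hε : 0 < ε) (B : ℕ) :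
    ∃ N : ℕ, B ≤ N ∧ ∃ R : Finset (E → Fin N),
      (N : ℝ) ^ (((msys hG F hF E hnc).rk Finset.univ : ℝ) - ε) ≤ (R.card : ℝ) ∧
      ∀ ρ ∈ R, ∀ σ ∈ R, (msys hG F hF E hnc).IsFlat (Finset.univ.filter (fun e => ρ e = σ e)) := by
  classical
  obtain ⟨N, hN, R, hR, hfd⟩ := lower_bound hG F hF hSp E hx ε hε B
  refine ⟨N, hN, R, ?_, ?_⟩
  · rw [msys_rk_univ hG F hF E hnc hx]
    exact hR
  · intro ρ hρ σ hσ
    apply Finset.Subset.antisymm _ ((msys hG F hF E hnc).subset_cl _)
    intro v hv
    rw [msys_cl] at hv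
    rw [Finset.mem_filter]
    refine ⟨Finset.mem_univ _, ?_⟩
    refine hfd ρ hρ σ hσ _ v hv ?_
    intro u hu
    exact (Finset.mem_filter.1 hu).2

end

end MFLB
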