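import Pool.Agent.MFLB.Rank

/-!
# MFLB.Alg : the polynomial ring with group action and its algebraic matroid
-/

open Set

set_option linter.unusedSectionVars false

namespace MFLB

/-- the polynomial ring in the variables `x_(i,h)`, `i < r`, `h ∈ G` -/
def PP (k : Type*) (G : Type*) (r : ℕ) [CommRing k] : Type _ := MvPolynomial (Fin r × G) k

section

variable {k : Type*} {G : Type*} {r : ℕ} [CommRing k]

noncomputable instance : CommRing (PP k G r) :=
  inferInstanceAs (CommRing (MvPolynomial (Fin r × G) k))

noncomputable instance : Algebra k (PP k G r) :=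
  inferInstanceAs (Algebra k (MvPolynomial (Fin r × G) k))

instance [IsDomain k] : IsDomain (PP k G r) :=
  inferInstanceAs (IsDomain (MvPolynomial (Fin r × G) k))

instance : FaithfulSMul k (PP k G r) :=
  inferInstanceAs (FaithfulSMul k (MvPolynomial (Fin r × G) k))

/-- the variables -/
noncomputable def xx (i : Fin r) (h : G) : PP k G r := (MvPolynomial.X (i, h) : MvPolynomial _ k)

/-- the constants -/
noncomputable def cc : k →+* PP k G r := (MvPolynomial.C : k →+* MvPolynomial (Fin r × G) k)

theorem algebraMap_eq_cc (c : k) : algebraMap k (PP k G r) c = cc c := rfl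

theorem cc_injective : Function.Injective (cc : k →+* PP k G r) :=
  MvPolynomial.C_injective _ _

theorem PP_hom_ext {R : Type*} [CommRing R] {f g : PP k G r →+* R}
    (h1 : ∀ c, f (cc c) = g (cc c)) (h2 : ∀ i h, f (xx i h) = g (xx i h)) : f = g :=
  MvPolynomial.ringHom_ext (f := f) (g := g) h1 (fun p => h2 p.1 p.2)

/-- evaluation -/
noncomputable def ev {R : Type*} [CommRing R] (π : k →+* R) (x : Fin r × G → R) : PP k G r →+* R :=
  (MvPolynomial.eval₂Hom π x : MvPolynomial (Fin r × G) k →+* R)

theorem ev_cc {R : Type*} [CommRing R] (π : k →+* R) (x : Fin r × G → R) (c : k) :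
    ev π x (cc c) = π c := MvPolynomial.eval₂Hom_C _ _ _

theorem ev_xx {R : Type*} [CommRing R] (π : k →+* R) (x : Fin r × G → R) (i : Fin r) (h : G) :
    ev π x (xx i h) = x (i, h) := MvPolynomial.eval₂Hom_X' _ _ _

variable [Group G] [MulSemiringAction G k]

/-- the action of `h` as a ring homomorphism -/
noncomputable def act (h : G) : PP k G r →+* PP k G r :=
  ev (cc.comp (MulSemiringAction.toRingHom G k h)) (fun p => xx p.1 (h * p.2))

theorem act_cc (h : G) (c : k) : act h (cc c : PP k G r) = cc (h • c) := by
  unfold act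
  rw [ev_cc]
  rfl

theorem act_xx (h : G) (i : Fin r) (x : G) : act h (xx i x : PP k G r) = xx i (h * x) := by
  unfold act
  rw [ev_xx]

theorem act_one : (act (1 : G) : PP k G r →+* PP k G r) = RingHom.id _ := by
  apply PP_hom_ext
  · intro c
    rw [act_cc, one_smul]
    rfl
  · intro i x
    rw [act_xx, one_mul]
    rfl

theorem act_mul (h h' : G) : (act (h * h') : PP k G r →+* PP k G r) = (act h).comp (act h') := by
  apply PP_hom_ext
  · intro c
    rw [act_cc, mul_smul, RingHom.comp_apply, act_cc, act_cc]
  · intro i x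
    rw [act_xx, mul_assoc, RingHom.comp_apply, act_xx, act_xx]

noncomputable instance : MulSemiringAction G (PP k G r) where
  smul h p := act h p
  one_smul p := by
    show act 1 p = p
    rw [act_one]
    rfl
  mul_smul h h' p := by
    show act (h * h') p = act h (act h' p)
    rw [act_mul]
    rfl
  smul_zero h := map_zero (act h)
  smul_add h p q := map_add (act h) p q
  smul_one h := map_one (act h)
  smul_mul h p q := map_mul (act h) p q

theorem smul_def (h : G) (p : PP k G r) : h • p = act h p := rfl

theorem smul_cc (h : G) (c : k) : h • (cc c : PP k G r) = cc (h • c) := act_cc h c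

theorem smul_xx (h : G) (i : Fin r) (x : G) : h • (xx i x : PP k G r) = xx i (h * x) :=
  act_xx h i x

theorem act_injective (h : G) : Function.Injective (act h : PP k G r → PP k G r) := by
  intro p q hpq
  have h1 : h⁻¹ • (h • p) = h⁻¹ • (h • q) := by
    rw [smul_def h p, smul_def h q, hpq]
  rwa [inv_smul_smul, inv_smul_smul] at h1

/-- the image of an adjoin under a translation -/
theorem act_mem_adjoin (h : G) (X : Set (PP k G r)) (a : PP k G r)
    (ha : a ∈ Algebra.adjoin k X) :
    act h a ∈ Algebra.adjoin k ((fun x => h • x) '' X) := by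
  induction ha using Algebra.adjoin_induction with
  | mem x hx => exact Algebra.subset_adjoin ⟨x, hx, rfl⟩
  | algebraMap c =>
    rw [algebraMap_eq_cc, act_cc]
    exact Subalgebra.algebraMap_mem _ _
  | add x y _ _ hx hy =>
    rw [map_add]
    exact add_mem hx hy
  | mul x y _ _ hx hy =>
    rw [map_mul]
    exact mul_mem hx hy

variable [IsDomain k]

/-- the algebraic matroid -/
noncomputable def MM (k : Type*) (G : Type*) (r : ℕ) [CommRing k] [IsDomain k] :
    Matroid (PP k G r) := AlgebraicIndependent.matroid k (PP k G r)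

theorem MM_E : (MM k G r).E = univ := rfl

/-- explicit form of the closure -/
theorem mem_closure_iff (X : Set (PP k G r)) (a : PP k G r) :
    a ∈ (MM k G r).closure X ↔ ∃ q : Polynomial (PP k G r), q ≠ 0 ∧
      (∀ j, q.coeff j ∈ Algebra.adjoin k X) ∧ q.eval a = 0 := by
  unfold MM
  rw [AlgebraicIndependent.matroid_closure_eq]
  show a ∈ Subalgebra.algebraicClosure (Algebra.adjoin k X) (PP k G r) ↔ _
  rw [Subalgebra.mem_algebraicClosure]
  constructor
  · rintro ⟨p, hp, hpa⟩
    refine ⟨p.map (algebraMap (Algebra.adjoin k X) (PP k G r)), ?_, ?_, ?_⟩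
    · intro h
      apply hp
      exact Polynomial.map_injective _ (Subtype.val_injective) (by rw [h, Polynomial.map_zero])
    · intro j
      rw [Polynomial.coeff_map]
      exact (p.coeff j).2
    · rwa [Polynomial.eval_map, ← Polynomial.aeval_def]
  · rintro ⟨q, hq, hc, hqa⟩
    have hlift : q ∈ Polynomial.lifts (algebraMap (Algebra.adjoin k X) (PP k G r)) := by
      rw [Polynomial.lifts_iff_coeff_lifts]
      intro j
      exact ⟨⟨q.coeff j, hc j⟩, rfl⟩
    obtain ⟨p, hp⟩ := (Polynomial.mem_lifts q).1 hlift
    refine ⟨p, ?_, ?_⟩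
    · rintro rfl
      apply hq
      rw [← hp, Polynomial.map_zero]
    · rw [Polynomial.aeval_def, ← Polynomial.eval_map, hp, hqa]

theorem MM_equivar : Equivar (MM k G r) G := by
  intro h X a ha
  rw [mem_closure_iff] at ha ⊢
  obtain ⟨q, hq, hc, hqa⟩ := ha
  refine ⟨q.map (act h), ?_, ?_, ?_⟩
  · intro h0
    apply hq
    exact Polynomial.map_injective _ (act_injective h) (by rw [h0, Polynomial.map_zero])
  · intro j
    rw [Polynomial.coeff_map]
    exact act_mem_adjoin h X _ (hc j)
  · rw [smul_def, Polynomial.eval_map, Polynomial.eval₂_hom, hqa, map_zero]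

end

end MFLB
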