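import Mathlib

/-!
# MFLB.Colour : from near functional dependencies to exact ones
-/

set_option autoImplicit false

namespace MFLB

open Finset

namespace ColourAux

/-- Bernoulli. -/
theorem pow_le (m c : ℕ) (hm : 1 ≤ m) (hc : c ≤ m) : (2 * m) ^ c ≤ 2 * (2 * m - 1) ^ c := by
  have hM : (0 : ℝ) < 2 * m := by
    have : (1 : ℝ) ≤ m := by exact_mod_cast hm
    linarith
  have h1 : (1 : ℝ) + c * (-(1 / (2 * m))) ≤ (1 + (-(1 / (2 * m)))) ^ c := by
    apply one_add_mul_le_pow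
    have : (1 : ℝ) / (2 * m) ≤ 1 := by
      rw [div_le_one hM]
      have : (1 : ℝ) ≤ m := by exact_mod_cast hm
      linarith
    linarith
  have h2 : (1 : ℝ) / 2 ≤ 1 + c * (-(1 / (2 * m))) := by
    have : (c : ℝ) * (1 / (2 * m)) ≤ 1 / 2 := by
      rw [mul_one_div, div_le_div_iff₀ hM (by norm_num)]
      have : (c : ℝ) ≤ m := by exact_mod_cast hc
      linarith
    linarith
  have h3 : ((2 * m - 1 : ℕ) : ℝ) = 2 * m * (1 + (-(1 / (2 * m)))) := by
    rw [Nat.cast_sub (by omega)]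
    push_cast
    field_simp
    ring
  have h4 : (((2 * m) ^ c : ℕ) : ℝ) ≤ ((2 * (2 * m - 1) ^ c : ℕ) : ℝ) := by
    push_cast
    rw [h3, mul_pow (2 * (m : ℝ))]
    have h5 : (0 : ℝ) ≤ (2 * (m : ℝ)) ^ c := by positivity
    have h6 : (1 : ℝ) ≤ 2 * (1 + (-(1 / (2 * (m : ℝ))))) ^ c := by linarith
    calc (2 * (m : ℝ)) ^ c = (2 * (m : ℝ)) ^ c * 1 := by ring
      _ ≤ (2 * (m : ℝ)) ^ c * (2 * (1 + (-(1 / (2 * (m : ℝ))))) ^ c) :=
        mul_le_mul_of_nonneg_left h6 h5
      _ = 2 * ((2 * (m : ℝ)) ^ c * (1 + (-(1 / (2 * (m : ℝ))))) ^ c) := by ring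
  exact_mod_cast h4

variable {X : Type*} [DecidableEq X]

/-- The colour of `x` is `0`. -/
def Z (T : Finset X) (M : ℕ) (χ : T → Fin M) (x : X) : Prop := ∃ h : x ∈ T, ((χ ⟨x, h⟩ : Fin M) : ℕ) = 0

open Classical in
theorem count (T : Finset X) (m : ℕ) (hm : 1 ≤ m) (a : X) (ha : a ∈ T) (C : Finset X) (hC : C ⊆ T)
    (haC : a ∉ C) (hcard : C.card ≤ m) :
    (2 * m) ^ T.card ≤ 2 * (2 * m) *
      (univ.filter (fun χ : T → Fin (2 * m) => Z T (2 * m) χ a ∧ ∀ b ∈ C, ¬ Z T (2 * m) χ b)).card := by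
  have hM : 0 < 2 * m := by omega
  set M := 2 * m with hMdef
  have : NeZero M := ⟨hM.ne'⟩
  set P := Fintype.piFinset (fun x : T => if (x : X) = a then ({0} : Finset (Fin M))
    else if (x : X) ∈ C then univ.erase 0 else univ) with hP
  have hsub : P ⊆ univ.filter (fun χ : T → Fin M => Z T M χ a ∧ ∀ b ∈ C, ¬ Z T M χ b) := by
    intro χ hχ
    rw [hP, Fintype.mem_piFinset] at hχ
    refine mem_filter.mpr ⟨mem_univ _, ⟨ha, ?_⟩, ?_⟩
    · have := hχ ⟨a, ha⟩
      rw [if_pos rfl, mem_singleton] at this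
      rw [this]
      rfl
    · rintro b hb ⟨hbT, hb0⟩
      have := hχ ⟨b, hbT⟩
      rw [if_neg (fun h => haC (by rw [← h]; exact hb)), if_pos hb, mem_erase] at this
      apply this.1
      apply Fin.ext
      rw [hb0]
      rfl
  refine le_trans ?_ (Nat.mul_le_mul_left _ (Finset.card_le_card hsub))
  have hcardP : P.card = ∏ x : T, (if (x : X) = a then 1 else if (x : X) ∈ C then M - 1 else M) := by
    rw [hP, Fintype.card_piFinset]
    apply Finset.prod_congr rfl
    intro x _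
    split_ifs
    · simp
    · rw [Finset.card_erase_of_mem (mem_univ _), Finset.card_univ, Fintype.card_fin]
    · rw [Finset.card_univ, Fintype.card_fin]
  have hg : (∏ x : T, (if (x : X) = a then M else 1)) * (∏ x : T, (if (x : X) ∈ C then M else 1)) =
      M * M ^ C.card := by
    congr 1
    · rw [Finset.prod_coe_sort T (fun x => if x = a then M else 1)]
      rw [Finset.prod_ite_eq' T a (fun _ => M), if_pos ha]
    · rw [Finset.prod_coe_sort T (fun x => if x ∈ C then M else 1)]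
      rw [Finset.prod_ite_mem, Finset.inter_eq_right.mpr hC, Finset.prod_const]
  have hf : P.card * (M * M ^ C.card) = M ^ T.card * (M - 1) ^ C.card := by
    rw [← hg, hcardP, ← Finset.prod_mul_distrib, ← Finset.prod_mul_distrib]
    have h1 : ∀ x : T, (if (x : X) = a then 1 else if (x : X) ∈ C then M - 1 else M) *
        ((if (x : X) = a then M else 1) * (if (x : X) ∈ C then M else 1)) =
        M * (if (x : X) ∈ C then M - 1 else 1) := by
      intro x
      by_cases h1 : (x : X) = a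
      · rw [if_pos h1, if_pos h1, if_neg (by rw [h1]; exact haC), if_neg (by rw [h1]; exact haC)]
        ring
      · by_cases h2 : (x : X) ∈ C
        · simp only [if_neg h1, if_pos h2]
          ring
        · simp only [if_neg h1, if_neg h2, mul_one]
    rw [Finset.prod_congr rfl (fun x _ => h1 x), Finset.prod_mul_distrib, Finset.prod_const,
      Finset.card_univ, Fintype.card_coe]
    congr 1
    rw [Finset.prod_coe_sort T (fun x => if x ∈ C then M - 1 else 1)]
    rw [Finset.prod_ite_mem, Finset.inter_eq_right.mpr hC, Finset.prod_const]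
  have hpw : M ^ C.card ≤ 2 * (M - 1) ^ C.card := pow_le m C.card hm hcard
  have hpos : 0 < M ^ C.card := by positivity
  have h2 : M ^ T.card * M ^ C.card ≤ (2 * M * P.card) * M ^ C.card := by
    calc M ^ T.card * M ^ C.card ≤ M ^ T.card * (2 * (M - 1) ^ C.card) := Nat.mul_le_mul_left _ hpw
      _ = 2 * (M ^ T.card * (M - 1) ^ C.card) := by ring
      _ = 2 * (P.card * (M * M ^ C.card)) := by rw [hf]
      _ = (2 * M * P.card) * M ^ C.card := by ring
  exact Nat.le_of_mul_le_mul_right h2 hpos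

open Classical in
/-- One column. -/
theorem single {E : Type*} [Fintype E] [DecidableEq E]
    (InCl : Finset E → E → Prop) (Rows : Finset (E → X)) (D : ℕ) (hD : 1 ≤ D) (v : E)
    (h : ∀ (S : Finset E), InCl S v → ∀ ρ ∈ Rows,
      ((Rows.filter (fun ρ' => ∀ u ∈ S, ρ' u = ρ u)).image (fun ρ' => ρ' v)).card ≤ D) :
    ∃ R : Finset (E → X), R ⊆ Rows ∧
      Rows.card ≤ (4 * 2 ^ (Fintype.card E) * D) * R.card ∧
      ∀ ρ ∈ R, ∀ ρ' ∈ R, ∀ (S : Finset E), InCl S v → (∀ u ∈ S, ρ u = ρ' u) → ρ v = ρ' v := by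
  set m := 2 ^ (Fintype.card E) * D with hm
  have hm1 : 1 ≤ m := Nat.one_le_iff_ne_zero.mpr (by positivity)
  set T := Rows.image (fun ρ => ρ v) with hT
  set C : (E → X) → Finset X := fun ρ =>
    ((univ.filter (fun S : Finset E => InCl S v)).biUnion (fun S =>
      (Rows.filter (fun ρ' => ∀ u ∈ S, ρ' u = ρ u)).image (fun ρ' => ρ' v))).erase (ρ v) with hC
  have hCT : ∀ ρ, C ρ ⊆ T := by
    intro ρ b hb
    obtain ⟨S, _, hS⟩ := mem_biUnion.mp (mem_of_mem_erase hb)
    obtain ⟨ρ', h1, h2⟩ := mem_image.mp hS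
    exact mem_image.mpr ⟨ρ', (mem_filter.mp h1).1, h2⟩
  have hCm : ∀ ρ ∈ Rows, (C ρ).card ≤ m := by
    intro ρ hρ
    refine (card_le_card (erase_subset _ _)).trans ?_
    refine (card_biUnion_le).trans ?_
    refine (sum_le_sum (fun S hS => h S (mem_filter.mp hS).2 ρ hρ)).trans ?_
    rw [sum_const, smul_eq_mul, hm]
    apply Nat.mul_le_mul_right
    refine (card_filter_le _ _).trans ?_
    rw [card_univ, Fintype.card_finset]
  -- for a colouring, the rows that survive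
  set R : (T → Fin (2 * m)) → Finset (E → X) := fun χ => Rows.filter (fun ρ =>
    Z T (2 * m) χ (ρ v) ∧ ∀ b ∈ C ρ, ¬ Z T (2 * m) χ b) with hR
  have hsum : Rows.card * (2 * m) ^ T.card ≤ ∑ χ : T → Fin (2 * m), 2 * (2 * m) * (R χ).card := by
    rw [← Finset.mul_sum]
    have h1 : ∑ χ : T → Fin (2 * m), (R χ).card = ∑ ρ ∈ Rows,
        (univ.filter (fun χ : T → Fin (2 * m) =>
          Z T (2 * m) χ (ρ v) ∧ ∀ b ∈ C ρ, ¬ Z T (2 * m) χ b)).card := by
      simp only [hR, card_filter]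
      rw [Finset.sum_comm]
    rw [h1, Finset.mul_sum, ← smul_eq_mul, ← Finset.sum_const]
    apply Finset.sum_le_sum
    intro ρ hρ
    exact count T m hm1 (ρ v) (mem_image.mpr ⟨ρ, hρ, rfl⟩) (C ρ) (hCT ρ) (by simp [hC]) (hCm ρ hρ)
  have : NeZero (2 * m) := ⟨by omega⟩
  obtain ⟨χ, hχ⟩ : ∃ χ : T → Fin (2 * m), Rows.card ≤ 2 * (2 * m) * (R χ).card := by
    by_contra hcon
    push Not at hcon
    have h2 : ∑ χ : T → Fin (2 * m), 2 * (2 * m) * (R χ).card < ∑ _χ : T → Fin (2 * m), Rows.card := by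
      apply Finset.sum_lt_sum_of_nonempty ⟨fun _ => 0, mem_univ _⟩
      intro χ _
      exact hcon χ
    rw [sum_const, card_univ, Fintype.card_fun, Fintype.card_fin, Fintype.card_coe,
      smul_eq_mul] at h2
    have h3 := lt_of_le_of_lt hsum h2
    rw [Nat.mul_comm] at h3
    exact lt_irrefl _ h3
  refine ⟨R χ, filter_subset _ _, ?_, ?_⟩
  · have : 4 * 2 ^ (Fintype.card E) * D = 2 * (2 * m) := by rw [hm]; ring
    rw [this]
    exact hχ
  · intro ρ hρ ρ' hρ' S hS hag
    by_contra hne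
    obtain ⟨_, _, h2⟩ := mem_filter.mp hρ
    obtain ⟨h3, h4, _⟩ := mem_filter.mp hρ'
    apply h2 (ρ' v) _ h4
    rw [hC]
    refine mem_erase.mpr ⟨fun h => hne h.symm, ?_⟩
    refine mem_biUnion.mpr ⟨S, mem_filter.mpr ⟨mem_univ _, hS⟩, ?_⟩
    exact mem_image.mpr ⟨ρ', mem_filter.mpr ⟨h3, fun u hu => (hag u hu).symm⟩, rfl⟩

end ColourAux

open ColourAux

/-- From near functional dependencies to exact ones, by random colouring. -/
theorem colour {E X : Type*} [Fintype E] [DecidableEq E] [DecidableEq X]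
    (InCl : Finset E → E → Prop) (Rows : Finset (E → X)) (D : ℕ) (hD : 1 ≤ D)
    (h : ∀ (S : Finset E) (v : E), InCl S v → ∀ ρ ∈ Rows,
      ((Rows.filter (fun ρ' => ∀ u ∈ S, ρ' u = ρ u)).image (fun ρ' => ρ' v)).card ≤ D) :
    ∃ R : Finset (E → X), R ⊆ Rows ∧
      Rows.card ≤ (4 * 2 ^ (Fintype.card E) * D) ^ (Fintype.card E) * R.card ∧
      ∀ ρ ∈ R, ∀ ρ' ∈ R, ∀ (S : Finset E) (v : E), InCl S v → (∀ u ∈ S, ρ u = ρ' u) → ρ v = ρ' v := by
  classical
  have main : ∀ s : Finset E, ∃ R : Finset (E → X), R ⊆ Rows ∧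
      Rows.card ≤ (4 * 2 ^ (Fintype.card E) * D) ^ s.card * R.card ∧
      ∀ v ∈ s, ∀ ρ ∈ R, ∀ ρ' ∈ R, ∀ (S : Finset E), InCl S v → (∀ u ∈ S, ρ u = ρ' u) →
        ρ v = ρ' v := by
    intro s
    induction s using Finset.induction_on with
    | empty => exact ⟨Rows, Subset.refl _, by simp, by simp⟩
    | insert v s hv ih =>
      obtain ⟨R, hR1, hR2, hR3⟩ := ih
      obtain ⟨R', h1, h2, h3⟩ := single InCl R D hD v (by
        intro S hS ρ hρ
        refine le_trans (card_le_card ?_) (h S v hS ρ (hR1 hρ))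
        exact image_subset_image (filter_subset_filter _ hR1))
      refine ⟨R', h1.trans hR1, ?_, ?_⟩
      · rw [card_insert_of_notMem hv, pow_succ, mul_assoc]
        exact hR2.trans (Nat.mul_le_mul_left _ h2)
      · intro v' hv' ρ hρ ρ' hρ' S hS hag
        rcases mem_insert.mp hv' with rfl | hv'
        · exact h3 ρ hρ ρ' hρ' S hS hag
        · exact hR3 v' hv' ρ (h1 hρ) ρ' (h1 hρ') S hS hag
  obtain ⟨R, hR1, hR2, hR3⟩ := main univ
  refine ⟨R, hR1, by simpa using hR2, ?_⟩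
  intro ρ hρ ρ' hρ' S v hS hag
  exact hR3 v (mem_univ _) ρ hρ ρ' hρ' S hS hag

end MFLB
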