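import Mathlib

/-!
# MFLB.Count : algebraic dependence gives near functional dependence
-/

namespace MFLB

open MvPolynomial

theorem Count_lift {k : Type*} [CommRing k] {Y α : Type*} (f : α → MvPolynomial Y k)
    (g : MvPolynomial Y k) (hg : IsAlgebraic (Algebra.adjoin k (Set.range f)) g) :
    ∃ P : Polynomial (MvPolynomial α k), P.map (aeval f).toRingHom ≠ 0 ∧
      (P.map (aeval f).toRingHom).eval g = 0 := by
  obtain ⟨p, hp0, hp⟩ := hg
  have hsub : ∀ a : Algebra.adjoin k (Set.range f), ∃ F : MvPolynomial α k,
      aeval f F = (a : MvPolynomial Y k) := by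
    rintro ⟨a, ha⟩
    rw [Algebra.adjoin_range_eq_range_aeval] at ha
    exact ha
  choose s hs using hsub
  refine ⟨∑ i ∈ p.support, Polynomial.monomial i (s (p.coeff i)), ?_, ?_⟩
  · have h2 : (∑ i ∈ p.support, Polynomial.monomial i (s (p.coeff i))).map
        (aeval f).toRingHom = p.map (algebraMap (Algebra.adjoin k (Set.range f)) (MvPolynomial Y k)) := by
      rw [Polynomial.map_sum]
      conv_rhs => rw [p.as_sum_support, Polynomial.map_sum]
      refine Finset.sum_congr rfl fun i _ => ?_
      rw [Polynomial.map_monomial, Polynomial.map_monomial]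
      congr 1
      exact hs _
    rw [h2]
    intro h3
    apply hp0
    have hinj : Function.Injective (algebraMap (Algebra.adjoin k (Set.range f)) (MvPolynomial Y k)) :=
      Subtype.val_injective
    exact (Polynomial.map_eq_zero_iff hinj).1 h3
  · have h2 : (∑ i ∈ p.support, Polynomial.monomial i (s (p.coeff i))).map
        (aeval f).toRingHom = p.map (algebraMap (Algebra.adjoin k (Set.range f)) (MvPolynomial Y k)) := by
      rw [Polynomial.map_sum]
      conv_rhs => rw [p.as_sum_support, Polynomial.map_sum]
      refine Finset.sum_congr rfl fun i _ => ?_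
      rw [Polynomial.map_monomial, Polynomial.map_monomial]
      congr 1
      exact hs _
    rw [h2, Polynomial.eval_map_algebraMap]
    exact hp

theorem Count_one {k : Type*} [CommRing k] {Y α : Type*} (f : α → MvPolynomial Y k)
    (g : MvPolynomial Y k) (hg : IsAlgebraic (Algebra.adjoin k (Set.range f)) g) :
    ∃ (L : MvPolynomial Y k) (D : ℕ), L ≠ 0 ∧ ∀ (Ω : Type) [Field Ω] (π : k →+* Ω) (c : α → Ω),
      ∃ T : Finset Ω, T.card ≤ D ∧ ∀ x : Y → Ω, (∀ a, eval₂ π x (f a) = c a) →
        eval₂ π x L ≠ 0 → eval₂ π x g ∈ T := by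
  obtain ⟨P, hP0, hP⟩ := Count_lift f g hg
  obtain ⟨j, hj⟩ : ∃ j, (P.map (aeval f).toRingHom).coeff j ≠ 0 := by
    by_contra hcon
    push Not at hcon
    exact hP0 (Polynomial.ext (by simpa using hcon))
  refine ⟨(P.map (aeval f).toRingHom).coeff j, P.natDegree, hj, ?_⟩
  intro Ω _ π c
  classical
  refine ⟨(P.map (eval₂Hom π c)).roots.toFinset, ?_, ?_⟩
  · refine (Multiset.toFinset_card_le _).trans ((Polynomial.card_roots' _).trans ?_)
    exact Polynomial.natDegree_map_le
  · intro x hx hL
    have hc : (fun a => eval₂ π x (f a)) = c := funext hx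
    have hcomp : (eval₂Hom π x).comp (aeval f).toRingHom = eval₂Hom π c := by
      refine MvPolynomial.ringHom_ext ?_ ?_
      · intro r
        simp
      · intro a
        simp [← hc]
    have h1 : P.map (eval₂Hom π c) = (P.map (aeval f).toRingHom).map (eval₂Hom π x) := by
      rw [Polynomial.map_map, hcomp]
    rw [Multiset.mem_toFinset, Polynomial.mem_roots', h1]
    constructor
    · intro h2
      apply hL
      have h3 := congrArg (fun q : Polynomial Ω => q.coeff j) h2
      simp only [Polynomial.coeff_map, Polynomial.coeff_zero] at h3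
      rw [Polynomial.coeff_map]
      exact h3
    · have h4 : eval₂ π x g = eval₂Hom π x g := rfl
      rw [Polynomial.IsRoot, h4, Polynomial.eval_map, Polynomial.eval₂_hom, hP, map_zero]

/-- **near functional dependence**: if all `g b` are algebraic over the `f a`, then at all points
where a suitable nonzero polynomial `L` does not vanish, the values of the `f a` leave at most `D`
possibilities for the values of the `g b`. -/
theorem near_fd {k : Type*} [CommRing k] [IsDomain k] {Y α β : Type*} [Fintype β] [DecidableEq β]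
    (f : α → MvPolynomial Y k) (g : β → MvPolynomial Y k)
    (hg : ∀ b, g b ∈ (AlgebraicIndependent.matroid k (MvPolynomial Y k)).closure (Set.range f)) :
    ∃ (L : MvPolynomial Y k) (D : ℕ), L ≠ 0 ∧ ∀ (Ω : Type) [Field Ω] (π : k →+* Ω) (c : α → Ω),
      ∃ T : Finset (β → Ω), T.card ≤ D ∧ ∀ x : Y → Ω, (∀ a, eval₂ π x (f a) = c a) →
        eval₂ π x L ≠ 0 → (fun b => eval₂ π x (g b)) ∈ T := by
  have h1 : ∀ b, IsAlgebraic (Algebra.adjoin k (Set.range f)) (g b) := by
    intro b
    have h2 := hg b
    rw [AlgebraicIndependent.matroid_closure_eq] at h2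
    exact h2
  choose L D hL0 hL using fun b => Count_one f (g b) (h1 b)
  refine ⟨∏ b, L b, ∏ b, D b, Finset.prod_ne_zero_iff.2 fun b _ => hL0 b, ?_⟩
  intro Ω _ π c
  choose T hT1 hT2 using fun b => hL b Ω π c
  refine ⟨Fintype.piFinset T, ?_, ?_⟩
  · rw [Fintype.card_piFinset]
    exact Finset.prod_le_prod' fun b _ => hT1 b
  · intro x hx hLx
    rw [Fintype.mem_piFinset]
    intro b
    apply hT2 b x hx
    intro h3
    apply hLx
    have h4 : eval₂ π x (∏ b, L b) = ∏ b, eval₂ π x (L b) := by
      exact map_prod (eval₂Hom π x) L Finset.univ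
    rw [h4]
    exact Finset.prod_eq_zero (Finset.mem_univ b) h3

end MFLB
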