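import Mathlib

/-!
# MFLB.SZ : generic assignments over finite subfields of the algebraic closure of `ZMod 2`
-/

namespace MFLB

open MvPolynomial

/-- finite subfields containing a given finite set and of a given size -/
theorem SZ_subfield (C : Finset (AlgebraicClosure (ZMod 2))) (B : ℕ) :
    ∃ F : Subfield (AlgebraicClosure (ZMod 2)), Finite F ∧ (∀ c ∈ C, c ∈ F) ∧ B ≤ Nat.card F := by
  obtain ⟨C', hC'⟩ := Infinite.exists_subset_card_eq (AlgebraicClosure (ZMod 2)) B
  classical
  have hint : ∀ x ∈ ((C ∪ C' : Finset (AlgebraicClosure (ZMod 2))) : Set (AlgebraicClosure (ZMod 2))),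
      IsIntegral (ZMod 2) x := fun x _ => Algebra.IsIntegral.isIntegral x
  have hfd := IntermediateField.finiteDimensional_adjoin hint
  have hfin : Finite (IntermediateField.adjoin (ZMod 2)
      ((C ∪ C' : Finset (AlgebraicClosure (ZMod 2))) : Set (AlgebraicClosure (ZMod 2)))) :=
    Module.finite_of_finite (ZMod 2)
  have hsub := IntermediateField.subset_adjoin (ZMod 2)
      ((C ∪ C' : Finset (AlgebraicClosure (ZMod 2))) : Set (AlgebraicClosure (ZMod 2)))
  refine ⟨(IntermediateField.adjoin (ZMod 2)
      ((C ∪ C' : Finset (AlgebraicClosure (ZMod 2))) : Set (AlgebraicClosure (ZMod 2)))).toSubfield,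
      hfin, ?_, ?_⟩
  · intro c hc
    exact hsub (by simp [hc])
  · rw [← hC']
    have hfin' : ((IntermediateField.adjoin (ZMod 2)
      ((C ∪ C' : Finset (AlgebraicClosure (ZMod 2))) :
        Set (AlgebraicClosure (ZMod 2)))).toSubfield : Set (AlgebraicClosure (ZMod 2))).Finite :=
      Set.finite_coe_iff.1 hfin
    have h1 : (C' : Set (AlgebraicClosure (ZMod 2))) ⊆ (IntermediateField.adjoin (ZMod 2)
      ((C ∪ C' : Finset (AlgebraicClosure (ZMod 2))) :
        Set (AlgebraicClosure (ZMod 2)))).toSubfield := by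
      intro c hc
      exact hsub (by simp [Finset.mem_coe.1 hc])
    have h2 := Set.ncard_le_ncard h1 hfin'
    rw [Set.ncard_coe_finset] at h2
    exact h2

/-- Schwartz-Zippel for an arbitrary finite type of variables -/
theorem SZ_gen {R : Type*} [CommRing R] [IsDomain R] [DecidableEq R] {σ : Type*} [Fintype σ]
    [DecidableEq σ] (Q : MvPolynomial σ R) (hQ : Q ≠ 0) :
    ∃ d : ℕ, ∀ S : Finset R, S.Nonempty →
      ((Fintype.piFinset fun _ : σ => S).filter (fun x => eval x Q = 0)).card * S.card ≤
        d * S.card ^ (Fintype.card σ) := by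
  classical
  let e := Fintype.equivFin σ
  have hQ' : rename e Q ≠ 0 := by
    intro h
    exact hQ (rename_injective e e.injective (by rw [h, map_zero]))
  refine ⟨(rename e Q).totalDegree, ?_⟩
  intro S hS
  have h1 := schwartz_zippel_totalDegree hQ' S
  have hpos : (0 : ℚ≥0) < S.card := by exact_mod_cast hS.card_pos
  rw [div_le_div_iff₀ (by positivity) hpos] at h1
  have h2 : ((Fintype.piFinset fun _ : σ => S).filter (fun x => eval x Q = 0)).card =
      ((Fintype.piFinset fun _ : Fin (Fintype.card σ) => S).filter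
        (fun x => eval x (rename e Q) = 0)).card := by
    refine Finset.card_bij (fun x _ => x ∘ e.symm) ?_ ?_ ?_
    · intro x hx
      rw [Finset.mem_filter, Fintype.mem_piFinset] at hx ⊢
      refine ⟨fun i => hx.1 _, ?_⟩
      rw [eval_rename]
      have : (x ∘ e.symm) ∘ e = x := by
        funext i
        simp
      rw [this]
      exact hx.2
    · intro x _ y _ hxy
      funext i
      have := congrFun hxy (e i)
      simpa using this
    · intro y hy
      rw [Finset.mem_filter, Fintype.mem_piFinset] at hy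
      refine ⟨y ∘ e, ?_, ?_⟩
      · rw [Finset.mem_filter, Fintype.mem_piFinset]
        refine ⟨fun i => hy.1 _, ?_⟩
        rw [← eval_rename]
        exact hy.2
      · funext i
        simp
  rw [h2]
  exact_mod_cast h1

/-- **generic assignments** -/
theorem sz {k : Type*} [CommRing k] [IsDomain k] {Y : Type*} [DecidableEq Y] (Y0 : Finset Y)
    (Ls Ts : Finset (MvPolynomial Y k)) (hL : ∀ l ∈ Ls, l ≠ 0)
    (hSp : ∀ c : k, c ≠ 0 → ∃ π : k →+* AlgebraicClosure (ZMod 2), π c ≠ 0) (B : ℕ) :
    ∃ (π : k →+* AlgebraicClosure (ZMod 2)) (F : Subfield (AlgebraicClosure (ZMod 2)))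
      (A : Finset (Y → AlgebraicClosure (ZMod 2))),
      Finite F ∧ B ≤ Nat.card F ∧ Nat.card F ^ Y0.card ≤ 2 * A.card ∧
      (∀ x ∈ A, ∀ y, x y ∈ F) ∧ (∀ x ∈ A, ∀ x' ∈ A, (∀ y ∈ Y0, x y = x' y) → x = x') ∧
      (∀ x ∈ A, ∀ l ∈ Ls, eval₂ π x l ≠ 0) ∧ (∀ x ∈ A, ∀ t ∈ Ts, eval₂ π x t ∈ F) := by
  classical
  -- the product of the polynomials
  have hP : (∏ l ∈ Ls, l) ≠ 0 := Finset.prod_ne_zero_iff.2 hL
  obtain ⟨m, hm⟩ := MvPolynomial.ne_zero_iff.1 hP
  obtain ⟨π, hπ⟩ := hSp _ hm
  set Q : MvPolynomial Y (AlgebraicClosure (ZMod 2)) := MvPolynomial.map π (∏ l ∈ Ls, l) with hQdef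
  have hQ : Q ≠ 0 := by
    intro h
    apply hπ
    have := congrArg (MvPolynomial.coeff m) h
    rw [hQdef, coeff_map, coeff_zero] at this
    exact this
  set J : Finset Y := Q.vars ∪ Y0 with hJ
  obtain ⟨Q', hQ'⟩ := exists_rename_eq_of_vars_subset_range Q (Subtype.val : J → Y)
    Subtype.val_injective (by
      intro y hy
      rw [Subtype.range_val]
      simp only [hJ, Finset.coe_union, Set.mem_union]
      exact Or.inl hy)
  have hQ'0 : Q' ≠ 0 := by
    rintro rfl
    rw [map_zero] at hQ'
    exact hQ hQ'.symm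
  obtain ⟨d, hd⟩ := SZ_gen Q' hQ'0
  -- the field
  obtain ⟨F, hFfin, hFC, hFB⟩ := SZ_subfield
    (Ts.biUnion fun t => t.support.image fun n => π (t.coeff n)) (max B (2 * d + 1))
  have hFfin' : Finite (F : Set (AlgebraicClosure (ZMod 2))) := hFfin
  let S : Finset (AlgebraicClosure (ZMod 2)) := (Set.toFinite (F : Set (AlgebraicClosure (ZMod 2)))).toFinset
  have hSmem : ∀ a, a ∈ S ↔ a ∈ F := fun a => by
    simp [S]
  have hScard : S.card = Nat.card F := by
    have h1 : S.card = (F : Set (AlgebraicClosure (ZMod 2))).ncard := by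
      rw [Set.ncard_eq_toFinset_card _ (Set.toFinite _)]
    rw [h1]
    rfl
  have hSne : S.Nonempty := ⟨0, (hSmem 0).2 F.zero_mem⟩
  have hdS := hd S hSne
  have hbig : 2 * d + 1 ≤ S.card := by
    rw [hScard]
    exact (le_max_right _ _).trans hFB
  -- the generic points
  set G := (Fintype.piFinset fun _ : J => S).filter (fun x => eval x Q' ≠ 0) with hG
  have hGcard : S.card ^ J.card ≤ 2 * G.card := by
    have h1 : ((Fintype.piFinset fun _ : J => S).filter (fun x => eval x Q' = 0)).card + G.card =
        S.card ^ J.card := by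
      rw [hG, Finset.card_filter_add_card_filter_not]
      simp
    have h2 : 2 * ((Fintype.piFinset fun _ : J => S).filter (fun x => eval x Q' = 0)).card ≤
        S.card ^ J.card := by
      rw [Fintype.card_coe] at hdS
      by_contra hcon
      push Not at hcon
      have h3 : S.card ^ J.card * S.card <
          2 * ((Fintype.piFinset fun _ : J => S).filter (fun x => eval x Q' = 0)).card * S.card :=
        Nat.mul_lt_mul_of_pos_right hcon hSne.card_pos
      have h4 : 2 * d * S.card ^ J.card ≤ S.card ^ J.card * S.card := by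
        rw [mul_comm (S.card ^ J.card)]
        exact Nat.mul_le_mul_right _ (by omega)
      have h5 : 2 * ((Fintype.piFinset fun _ : J => S).filter (fun x => eval x Q' = 0)).card * S.card
          ≤ 2 * (d * S.card ^ J.card) := by
        rw [mul_assoc]
        exact Nat.mul_le_mul_left _ hdS
      rw [← mul_assoc] at h5
      omega
    omega
  -- fix the variables outside Y0
  let J1 : Finset J := Finset.univ.filter fun j => (j : Y) ∉ Y0
  have hJ1 : J1.card + Y0.card = J.card := by
    have h1 : (Finset.univ.filter fun j : J => (j : Y) ∈ Y0).card = Y0.card := by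
      refine Finset.card_bij (fun j _ => (j : Y)) ?_ ?_ ?_
      · intro j hj
        exact (Finset.mem_filter.1 hj).2
      · intro j _ j' _ h
        exact Subtype.ext h
      · intro y hy
        exact ⟨⟨y, Finset.mem_union_right _ hy⟩, by simp [hy], rfl⟩
    have h2 : (Finset.univ.filter fun j : J => (j : Y) ∈ Y0).card + J1.card = J.card := by
      rw [Finset.card_filter_add_card_filter_not]
      simp
    omega
  let rest : (J → AlgebraicClosure (ZMod 2)) → (J1 → AlgebraicClosure (ZMod 2)) :=
    fun x j => x j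
  have hmaps : ∀ x ∈ G, rest x ∈ Fintype.piFinset (fun _ : J1 => S) := by
    intro x hx
    rw [Fintype.mem_piFinset]
    intro j
    exact (Fintype.mem_piFinset.1 (Finset.mem_filter.1 hx).1) j
  have hne : (Fintype.piFinset (fun _ : J1 => S)).Nonempty := Fintype.piFinset_nonempty.2 fun _ => hSne
  obtain ⟨z, hz, hzcard⟩ := Finset.exists_le_card_fiber_of_nsmul_le_card_of_maps_to (M := ℚ)
    (b := (S.card : ℚ) ^ Y0.card / 2) hmaps hne (by
      rw [Fintype.card_piFinset, Finset.prod_const, Finset.card_univ, Fintype.card_coe, nsmul_eq_mul]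
      push_cast
      have h1 : ((S.card : ℚ) ^ J.card) ≤ 2 * G.card := by exact_mod_cast hGcard
      rw [← hJ1, pow_add] at h1
      linarith)
  have hzcard' : S.card ^ Y0.card ≤ 2 * (G.filter (fun x => rest x = z)).card := by
    have h1 : ((S.card : ℚ) ^ Y0.card) ≤ 2 * ((G.filter (fun x => rest x = z)).card : ℚ) := by
      linarith
    exact_mod_cast h1
  -- the assignments
  let ext : (J → AlgebraicClosure (ZMod 2)) → (Y → AlgebraicClosure (ZMod 2)) :=
    fun x y => if h : y ∈ J then x ⟨y, h⟩ else 0
  have hext : ∀ x, ext x ∘ (Subtype.val : J → Y) = x := by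
    intro x
    funext j
    simp [ext]
  have hextinj : Function.Injective ext := by
    intro x x' h
    rw [← hext x, ← hext x', h]
  refine ⟨π, F, (G.filter (fun x => rest x = z)).image ext, hFfin, (le_max_left _ _).trans hFB, ?_, ?_,
    ?_, ?_, ?_⟩
  · rw [Finset.card_image_of_injective _ hextinj, ← hScard]
    exact hzcard'
  · intro x hx y
    obtain ⟨x', hx', rfl⟩ := Finset.mem_image.1 hx
    have h1 := (Finset.mem_filter.1 (Finset.mem_filter.1 hx').1).1
    by_cases hy : y ∈ J
    · simp only [ext, hy, dif_pos]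
      exact (hSmem _).1 ((Fintype.mem_piFinset.1 h1) _)
    · simp only [ext, hy, dif_neg, not_false_eq_true]
      exact F.zero_mem
  · intro x hx x' hx' h
    obtain ⟨w, hw, rfl⟩ := Finset.mem_image.1 hx
    obtain ⟨w', hw', rfl⟩ := Finset.mem_image.1 hx'
    congr 1
    funext j
    by_cases hj : (j : Y) ∈ Y0
    · have h1 := h j hj
      simp only [ext] at h1
      simpa using h1
    · have h1 : rest w = rest w' := by
        rw [(Finset.mem_filter.1 hw).2, (Finset.mem_filter.1 hw').2]
      exact congrFun h1 ⟨j, by simp [J1, hj]⟩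
  · intro x hx l hl h0
    obtain ⟨w, hw, rfl⟩ := Finset.mem_image.1 hx
    have h1 := (Finset.mem_filter.1 (Finset.mem_filter.1 hw).1).2
    apply h1
    have h2 : eval (ext w) Q = 0 := by
      rw [hQdef, eval_map]
      have h3 : eval₂ π (ext w) (∏ l ∈ Ls, l) = ∏ l ∈ Ls, eval₂ π (ext w) l :=
        map_prod (eval₂Hom π (ext w)) (fun l => l) Ls
      rw [h3]
      exact Finset.prod_eq_zero hl h0
    rw [← hQ', eval_rename, hext] at h2
    exact h2
  · intro x hx t ht
    have hxF : ∀ y, x y ∈ F := by
      intro y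
      obtain ⟨x', hx', rfl⟩ := Finset.mem_image.1 hx
      have h1 := (Finset.mem_filter.1 (Finset.mem_filter.1 hx').1).1
      by_cases hy : y ∈ J
      · simp only [ext, hy, dif_pos]
        exact (hSmem _).1 ((Fintype.mem_piFinset.1 h1) _)
      · simp only [ext, hy, dif_neg, not_false_eq_true]
        exact F.zero_mem
    rw [eval₂_eq]
    refine F.sum_mem fun n hn => F.mul_mem ?_ (F.prod_mem fun y _ => F.pow_mem (hxF y) _)
    apply hFC
    rw [Finset.mem_biUnion]
    exact ⟨t, ht, Finset.mem_image_of_mem _ hn⟩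

end MFLB
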