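import Pool.Agent.MFLB.Alg
import Pool.Agent.MFLB.Colour
import Pool.Agent.MFLB.Count
import Pool.Agent.MFLB.SZ

/-! # MFLB.CS : adapters for Count and SZ -/

open Set MvPolynomial

namespace MFLB

theorem count {k Y : Type} [CommRing k] [IsDomain k] {α β : Type} [Finite α] [Finite β]
    (f : α → MvPolynomial Y k) (g : β → MvPolynomial Y k)
    (h : ∀ b, g b ∈ (AlgebraicIndependent.matroid k (MvPolynomial Y k)).closure (range f)) :
    ∃ (L : MvPolynomial Y k) (D : ℕ), L ≠ 0 ∧ ∀ (Ω : Type) [Field Ω] (π : k →+* Ω) (c : α → Ω),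
      {y : β → Ω | ∃ x : Y → Ω, (∀ a, eval₂Hom π x (f a) = c a) ∧ eval₂Hom π x L ≠ 0 ∧
        ∀ b, y b = eval₂Hom π x (g b)}.encard ≤ (D : ℕ∞) := by
  classical
  have := Fintype.ofFinite β
  obtain ⟨L, D, hL, hD⟩ := near_fd f g h
  refine ⟨L, D, hL, ?_⟩
  intro Ω _ π c
  obtain ⟨T, hT, hTx⟩ := hD Ω π c
  have hsub : {y : β → Ω | ∃ x : Y → Ω, (∀ a, eval₂Hom π x (f a) = c a) ∧ eval₂Hom π x L ≠ 0 ∧
        ∀ b, y b = eval₂Hom π x (g b)} ⊆ (T : Set (β → Ω)) := by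
    rintro y ⟨x, hx1, hx2, hx3⟩
    have h1 := hTx x hx1 hx2
    have h2 : y = fun b => eval₂ π x (g b) := funext hx3
    rw [h2]
    exact h1
  refine (Set.encard_le_encard hsub).trans ?_
  rw [Set.encard_coe_eq_coe_finsetCard]
  exact_mod_cast hT

theorem sz' {k Y : Type} [CommRing k] [IsDomain k]
    (hSp : ∀ c : k, c ≠ 0 → ∃ π : k →+* AlgebraicClosure (ZMod 2), π c ≠ 0)
    (Y0 : Finset Y) (L T : Finset (MvPolynomial Y k)) (hL : ∀ l ∈ L, l ≠ 0) (B : ℕ) :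
    ∃ (π : k →+* AlgebraicClosure (ZMod 2)) (Fq : Finset (AlgebraicClosure (ZMod 2)))
      (A : Finset (Y → AlgebraicClosure (ZMod 2))),
      B ≤ Fq.card ∧ Fq.card ^ Y0.card ≤ 2 * A.card ∧
      (∀ x ∈ A, ∀ y ∈ A, (∀ i ∈ Y0, x i = y i) → x = y) ∧
      (∀ x ∈ A, ∀ i, x i ∈ Fq) ∧
      (∀ x ∈ A, ∀ l ∈ L, eval₂Hom π x l ≠ 0) ∧
      (∀ x ∈ A, ∀ t ∈ T, eval₂Hom π x t ∈ Fq) := by
  classical
  obtain ⟨π, F, A, hF, hB, hc, h1, h2, h3, h4⟩ := sz Y0 L T hL hSp B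
  have hfin : (F : Set (AlgebraicClosure (ZMod 2))).Finite := hF
  have hcard : hfin.toFinset.card = Nat.card F :=
    (Set.ncard_eq_toFinset_card _ hfin).symm
  refine ⟨π, hfin.toFinset, A, by rw [hcard]; exact hB, by rw [hcard]; exact hc, ?_, ?_, ?_, ?_⟩
  · intro x hx y hy hxy
    exact h2 x hx y hy hxy
  · intro x hx i
    rw [Set.Finite.mem_toFinset]
    exact h1 x hx i
  · intro x hx l hl
    exact h3 x hx l hl
  · intro x hx t ht
    rw [Set.Finite.mem_toFinset]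
    exact h4 x hx t ht

end MFLB
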