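import Pool.Agent.MFLB.Sys
import Pool.Agent.helper36.MFD.Dom
import Pool.Agent.helper24.S12.Asm

/-!
# MFLB.Fin : reduction of the frozen negation to the upper bound for exact families
-/

open Set Filter Topology

set_option linter.unusedSectionVars false

namespace MFLB

/-- exact families on the columns `E` : all the dependencies of `Cl` hold -/
def ExactFam {k : Type} {G : Type} {r : ℕ} [CommRing k] [IsDomain k] [Group G] [LinearOrder G]
    [MulSemiringAction G k] (E : Finset (PP k G r)) (n : ℕ) (F : Finset (E → Fin n)) : Prop :=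
  ∀ (S : Finset E) (s : E), (s : PP k G r) ∈ Cl (MM k G r) G (Subtype.val '' (S : Set E)) →
    ∀ x ∈ F, ∀ y ∈ F, (∀ i ∈ S, x i = y i) → x s = y s

theorem frozen_from_UB {k : Type} {G : Type} {r : ℕ} [CommRing k] [IsDomain k] [CharP k 2]
    [Group G] [LinearOrder G] [MulSemiringAction G k]
    (hG : LeftInv G) (hF : ∃ F : ℕ → Finset G, Folner F)
    (hSp : ∀ c : k, c ≠ 0 → ∃ π : k →+* AlgebraicClosure (ZMod 2), π c ≠ 0)
    (E : Finset (PP k G r)) (hnc : ∀ v ∈ E, v ∉ Set.range (cc : k →+* PP k G r))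
    (hadd : ∀ u ∈ E, ∀ v ∈ E, u ≠ v → u + v ∈ E) (hx : ∀ i : Fin r, xx i 1 ∈ E) (i0 : Fin r)
    (hUB : ¬ ∃ c : ℝ, 0 < c ∧ ∃ᶠ n : ℕ in atTop, ∃ F : Finset (E → Fin n),
      c * (n : ℝ) ^ r ≤ (F.card : ℝ) ∧ ExactFam E n F) :
    ¬ (∀ (k : ℕ) (L : Finset ℕ), L.Nonempty → L ⊆ Finset.range k →
      ∃ α : ℝ, 1 ≤ α ∧
        Asymptotics.IsTheta Filter.atTop
          (fun n : ℕ => ((sSup {s : ℕ | ∃ F : Finset (Finset (Fin n)), F.card = s ∧
              (∀ A ∈ F, A.card = k) ∧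
              ∀ A ∈ F, ∀ B ∈ F, A ≠ B → (A ∩ B).card ∈ L} : ℕ) : ℝ))
          (fun n : ℕ => (n : ℝ) ^ α)) := by
  obtain ⟨F, hF⟩ := hF
  obtain ⟨H1, h1, h2, h3, h4⟩ := msys_hyp hG F hF E hnc hx hadd i0
  obtain ⟨k0, L, hL, hLk, hi, _, hiii⟩ := Pool.Agent.helper36.MFD.domination E
    (msys hG F hF E hnc) (msys_third hG F hF E hnc hadd) H1 h1 h2 h3 h4
  have hrk := msys_rk_univ hG F hF E hnc hx
  rw [hrk] at hiii
  have hk0 : 1 ≤ k0 := by
    obtain ⟨l, hl⟩ := hL
    have := Finset.mem_range.1 (hLk hl)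
    omega
  refine Pool.Agent.helper24.S12.frozen_of k0 L hL hLk (r : ℝ) ?_ ?_
  · intro ε hε
    rw [frequently_atTop]
    intro B
    -- a bound for `N`
    obtain ⟨B1, hB1⟩ : ∃ B1 : ℕ, ∀ N : ℕ, B1 ≤ N → (k0 : ℝ) ^ ((r : ℝ) - ε) ≤ (N : ℝ) ^ (ε / 2) := by
      have : Tendsto (fun n : ℕ => (n : ℝ) ^ (ε / 2)) atTop atTop :=
        (tendsto_rpow_atTop (by positivity)).comp tendsto_natCast_atTop_atTop
      exact eventually_atTop.1 (this.eventually_ge_atTop _)
    obtain ⟨N, hN, R, hR, hfl⟩ := msys_lower hG F hF E hnc hx hSp (ε / 2) (by positivity)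
      (max (max B B1) 1)
    have hNB : B ≤ N := le_trans (le_trans (le_max_left _ _) (le_max_left _ _)) hN
    have hNB1 : B1 ≤ N := le_trans (le_trans (le_max_right _ _) (le_max_left _ _)) hN
    have hN1 : 1 ≤ N := le_trans (le_max_right _ _) hN
    refine ⟨k0 * N, ?_, ?_⟩
    · show B ≤ k0 * N
      calc B ≤ N := hNB
        _ = 1 * N := (one_mul N).symm
        _ ≤ k0 * N := Nat.mul_le_mul_right N hk0
    · have h5 : R.card ≤ Pool.Agent.helper38.LSys.mm (k0 * N) k0 L := by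
        refine hi N R ?_
        intro x hx' y hy _
        exact hfl x hx' y hy
      have h6 : (R.card : ℝ) ≤ (Pool.Agent.helper24.S12.mm (k0 * N) k0 L : ℝ) := by
        exact_mod_cast h5
      refine le_trans ?_ h6
      rw [hrk] at hR
      refine le_trans ?_ hR
      have hNpos : (0 : ℝ) < N := by exact_mod_cast hN1
      have hkpos : (0 : ℝ) < k0 := by exact_mod_cast hk0
      push_cast
      rw [Real.mul_rpow hkpos.le hNpos.le]
      have h7 : (N : ℝ) ^ ((r : ℝ) - ε / 2) = (N : ℝ) ^ (ε / 2) * (N : ℝ) ^ ((r : ℝ) - ε) := by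
        rw [← Real.rpow_add hNpos]
        congr 1
        ring
      rw [h7]
      have h8 := hB1 N hNB1
      gcongr
  · intro c hc
    by_contra hno
    rw [not_frequently] at hno
    apply hUB
    have h5 : ∃ c : ℝ, 0 < c ∧ ∃ᶠ n : ℕ in atTop,
        c * (n : ℝ) ^ r ≤ (Pool.Agent.helper38.LSys.mm n k0 L : ℝ) := by
      refine ⟨c, hc, Filter.Eventually.frequently ?_⟩
      filter_upwards [hno] with n hn
      rw [not_lt, Real.rpow_natCast] at hn
      exact hn
    obtain ⟨c', hc', hfr⟩ := hiii atTop le_rfl h5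
    refine ⟨c', hc', hfr.mono ?_⟩
    rintro n ⟨R, hR1, hR2⟩
    refine ⟨R, hR1, ?_⟩
    intro S s hs x hx' y hy hxy
    exact hR2 S s ((msys_cl hG F hF E hnc S s).2 hs) x hx' y hy hxy

end MFLB
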