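import Pool.Agent.MFLB.Rank

/-!
# MFLB.Grp : the group `ℚ ⋊ ℤ`, its left invariant order and its Foelner sets
-/

set_option autoImplicit false

namespace MFLB

open Filter

/-- The group `ℚ ⋊ ℤ`, the generator of `ℤ` acts by multiplication by `3`. -/
@[ext] structure GG : Type where
  /-- translation part -/
  a : ℚ
  /-- scaling part -/
  n : ℤ

namespace GG

instance : Mul GG := ⟨fun x y => ⟨x.a + 3 ^ x.n * y.a, x.n + y.n⟩⟩
instance : One GG := ⟨⟨0, 0⟩⟩
instance : Inv GG := ⟨fun x => ⟨-(3 ^ (-x.n) * x.a), -x.n⟩⟩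

theorem mul_a (x y : GG) : (x * y).a = x.a + 3 ^ x.n * y.a := rfl
theorem mul_n (x y : GG) : (x * y).n = x.n + y.n := rfl
theorem one_a : (1 : GG).a = 0 := rfl
theorem one_n : (1 : GG).n = 0 := rfl
theorem inv_a (x : GG) : (x⁻¹).a = -(3 ^ (-x.n) * x.a) := rfl
theorem inv_n (x : GG) : (x⁻¹).n = -x.n := rfl

instance : Group GG := Group.ofLeftAxioms
  (by
    intro x y z
    ext
    · simp only [mul_a, mul_n]
      rw [zpow_add₀ (by norm_num)]
      ring
    · simp only [mul_n]
      ring)
  (by
    intro x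
    ext
    · simp [mul_a, one_a, one_n]
    · simp [mul_n, one_n])
  (by
    intro x
    ext
    · simp only [mul_a, inv_a, inv_n, one_a]
      ring
    · simp [mul_n, inv_n, one_n])

/-- The pair `(n, a)`, ordered lexicographically. -/
def key (x : GG) : ℤ ×ₗ ℚ := toLex (x.n, x.a)

theorem key_injective : Function.Injective key := by
  intro x y h
  have h1 : (x.n, x.a) = (y.n, y.a) := by
    have := congrArg ofLex h
    exact this
  rw [Prod.mk.injEq] at h1
  exact GG.ext h1.2 h1.1

noncomputable instance : LinearOrder GG := LinearOrder.lift' key key_injective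

theorem lt_iff (x y : GG) : x < y ↔ x.n < y.n ∨ x.n = y.n ∧ x.a < y.a := by
  have : x < y ↔ key x < key y := Iff.rfl
  rw [this]
  exact Prod.Lex.toLex_lt_toLex

theorem leftInv : LeftInv GG := by
  intro x y z h
  rw [lt_iff] at h ⊢
  rw [mul_n, mul_n, mul_a, mul_a]
  rcases h with h | ⟨h1, h2⟩
  · left
    omega
  · right
    refine ⟨by omega, ?_⟩
    have : (0 : ℚ) < 3 ^ x.n := zpow_pos (by norm_num) _
    nlinarith

/-- The denominators. -/
def den (m : ℕ) : ℕ := m.factorial

/-- The number of translations. -/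
def len (m : ℕ) : ℕ := den m * 3 ^ m * (m + 1)

theorem den_pos (m : ℕ) : 0 < den m := m.factorial_pos

theorem len_pos (m : ℕ) : 0 < len m := by
  have := den_pos m
  unfold len
  positivity

/-- The elements of the box. -/
def pt (m : ℕ) (q : ℕ × ℕ) : GG := ⟨(q.2 : ℚ) / den m, (q.1 : ℤ)⟩

theorem pt_injective (m : ℕ) : Function.Injective (pt m) := by
  rintro ⟨n, i⟩ ⟨n', i'⟩ h
  have h1 := congrArg GG.n h
  have h2 := congrArg GG.a h
  simp only [pt] at h1 h2
  have hd : (den m : ℚ) ≠ 0 := by
    have := den_pos m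
    exact_mod_cast this.ne'
  rw [div_left_inj' hd] at h2
  rw [Prod.mk.injEq]
  exact ⟨by exact_mod_cast h1, by exact_mod_cast h2⟩

open Classical in
/-- The box. -/
noncomputable def box (m : ℕ) : Finset GG :=
  ((Finset.range (m + 1)) ×ˢ (Finset.range (len m))).image (pt m)

theorem box_card (m : ℕ) : (box m).card = (m + 1) * len m := by
  unfold box
  rw [Finset.card_image_of_injective _ (pt_injective m)]
  simp

theorem box_nonempty (m : ℕ) : (box m).Nonempty := by
  rw [← Finset.card_pos, box_card]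
  have := len_pos m
  positivity

/-- The bad translates of the box for one element. -/
theorem bad_single (k : GG) (L B D : ℕ) (hL : |k.n| ≤ L) (hB : |k.a| ≤ B) (hD : k.a.den = D)
    (m : ℕ) (hm : D ≤ m) :
    ((box m).filter (fun h => h * k ∉ box m)).card ≤
      2 * L * len m + (m + 1) * (2 * (B * 3 ^ m * den m)) := by
  classical
  set C := B * 3 ^ m * den m with hC
  set Q := (Finset.range (m + 1)) ×ˢ (Finset.range (len m)) with hQ
  set Bd := ((Finset.range L) ×ˢ (Finset.range (len m)) ∪
    (Finset.Ico (m + 1 - L) (m + 1)) ×ˢ (Finset.range (len m))) ∪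
    ((Finset.range (m + 1)) ×ˢ (Finset.range C) ∪
      (Finset.range (m + 1)) ×ˢ (Finset.Ico (len m - C) (len m))) with hBd
  have hsub : (box m).filter (fun h => h * k ∉ box m) ⊆ Bd.image (pt m) := by
    intro h hh
    rw [Finset.mem_filter] at hh
    obtain ⟨hbox, hbad⟩ := hh
    unfold box at hbox
    obtain ⟨⟨n, i⟩, hq, rfl⟩ := Finset.mem_image.mp hbox
    rw [Finset.mem_product, Finset.mem_range, Finset.mem_range] at hq
    obtain ⟨hn, hi⟩ := hq
    simp only at hn hi
    refine Finset.mem_image.mpr ⟨(n, i), ?_, rfl⟩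
    by_contra hnot
    apply hbad
    rw [hBd] at hnot
    have hnL : L ≤ n := by
      by_contra hc
      exact hnot (Finset.mem_union_left _ (Finset.mem_union_left _ (Finset.mem_product.mpr
        ⟨Finset.mem_range.mpr (by omega), Finset.mem_range.mpr hi⟩)))
    have hnL2 : n + L ≤ m := by
      by_contra hc
      exact hnot (Finset.mem_union_left _ (Finset.mem_union_right _ (Finset.mem_product.mpr
        ⟨Finset.mem_Ico.mpr ⟨by omega, hn⟩, Finset.mem_range.mpr hi⟩)))
    have hiC : C ≤ i := by
      by_contra hc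
      exact hnot (Finset.mem_union_right _ (Finset.mem_union_left _ (Finset.mem_product.mpr
        ⟨Finset.mem_range.mpr hn, Finset.mem_range.mpr (by omega)⟩)))
    have hiC2 : i + C < len m := by
      by_contra hc
      exact hnot (Finset.mem_union_right _ (Finset.mem_union_right _ (Finset.mem_product.mpr
        ⟨Finset.mem_range.mpr hn, Finset.mem_Ico.mpr ⟨by omega, hi⟩⟩)))
    -- the integer translation
    obtain ⟨e, he⟩ : ∃ e : ℤ, (3 : ℚ) ^ (n : ℤ) * k.a * den m = e := by
      have hdvd : k.a.den ∣ den m := by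
        unfold den
        exact Nat.dvd_factorial k.a.den_pos (by rw [hD]; exact hm)
      obtain ⟨c, hc⟩ := hdvd
      refine ⟨3 ^ n * (k.a.num * c), ?_⟩
      rw [hc]
      push_cast
      have h5 : k.a * (k.a.den : ℚ) = k.a.num := Rat.mul_den_eq_num k.a
      rw [zpow_natCast]
      calc (3 : ℚ) ^ n * k.a * (k.a.den * c) = 3 ^ n * ((k.a * k.a.den) * c) := by ring
        _ = 3 ^ n * (k.a.num * c) := by rw [h5]
    have heC : |e| ≤ C := by
      have h5 : |(e : ℚ)| ≤ (C : ℚ) := by
        rw [← he, abs_mul, abs_mul, hC]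
        push_cast
        rw [abs_of_nonneg (show (0 : ℚ) ≤ (3 : ℚ) ^ (n : ℤ) by positivity),
          abs_of_nonneg (show (0 : ℚ) ≤ (den m : ℚ) by positivity), zpow_natCast]
        have h6 : (3 : ℚ) ^ n ≤ 3 ^ m := pow_le_pow_right₀ (by norm_num) (by omega)
        have h7 : (3 : ℚ) ^ n * |k.a| ≤ 3 ^ m * B :=
          mul_le_mul h6 hB (abs_nonneg _) (by positivity)
        calc (3 : ℚ) ^ n * |k.a| * den m ≤ (3 ^ m * B) * den m := by gcongr
          _ = B * 3 ^ m * den m := by ring
      exact_mod_cast h5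
    have hdpos := den_pos m
    have hkn := abs_le.mp hL
    have hec := abs_le.mp heC
    unfold box
    refine Finset.mem_image.mpr ⟨((n + k.n : ℤ).toNat, ((i : ℤ) + e).toNat), ?_, ?_⟩
    · rw [Finset.mem_product, Finset.mem_range, Finset.mem_range]
      constructor
      · show (n + k.n : ℤ).toNat < m + 1
        omega
      · show ((i : ℤ) + e).toNat < len m
        omega
    · ext
      · rw [mul_a]
        show ((((i : ℤ) + e).toNat : ℕ) : ℚ) / den m = (i : ℚ) / den m + 3 ^ (n : ℤ) * k.a
        have h5 : ((((i : ℤ) + e).toNat : ℕ) : ℚ) = (i : ℚ) + e := by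
          have h6 : ((((i : ℤ) + e).toNat : ℕ) : ℤ) = (i : ℤ) + e := Int.toNat_of_nonneg (by omega)
          have h7 : (((((i : ℤ) + e).toNat : ℕ) : ℤ) : ℚ) = (((i : ℤ) + e : ℤ) : ℚ) := by rw [h6]
          push_cast at h7
          exact h7
        rw [h5, ← he]
        field_simp
      · rw [mul_n]
        show (((n + k.n : ℤ).toNat : ℕ) : ℤ) = (n : ℤ) + k.n
        exact Int.toNat_of_nonneg (by omega)
  refine (Finset.card_le_card hsub).trans ?_
  rw [Finset.card_image_of_injective _ (pt_injective m), hBd]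
  refine (Finset.card_union_le _ _).trans ?_
  refine (Nat.add_le_add (Finset.card_union_le _ _) (Finset.card_union_le _ _)).trans ?_
  simp only [Finset.card_product, Finset.card_range, Nat.card_Ico]
  have e1 : (m + 1 - (m + 1 - L)) * len m ≤ L * len m := Nat.mul_le_mul_right _ (by omega)
  have e2 : (m + 1) * (len m - (len m - C)) ≤ (m + 1) * C := Nat.mul_le_mul_left _ (by omega)
  have e3 : 2 * L * len m = L * len m + L * len m := by ring
  have e4 : (m + 1) * (2 * C) = (m + 1) * C + (m + 1) * C := by ring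
  omega

theorem folner : Folner (fun m => box m) := by
  classical
  refine ⟨box_nonempty, ?_⟩
  intro K ε hε
  -- one element
  have hone : ∀ k : GG, ∀ δ : ℝ, 0 < δ → ∀ᶠ m in atTop,
      (((box m).filter (fun h => h * k ∉ box m)).card : ℝ) ≤ δ * (box m).card := by
    intro k δ hδ
    set L := k.n.natAbs with hL
    obtain ⟨B, hB⟩ := exists_nat_ge |k.a|
    obtain ⟨N, hN⟩ := exists_nat_ge ((2 * (L : ℝ) + 2 * B) / δ)
    filter_upwards [eventually_ge_atTop (max N k.a.den)] with m hm
    have hmN : N ≤ m := (le_max_left _ _).trans hm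
    have hmD : k.a.den ≤ m := (le_max_right _ _).trans hm
    have h1 := bad_single k L B k.a.den (by rw [hL]; exact (Int.natCast_natAbs k.n).symm.le) hB rfl m hmD
    have h2 : (((box m).filter (fun h => h * k ∉ box m)).card : ℝ) ≤
        2 * L * len m + (m + 1) * (2 * (B * 3 ^ m * den m)) := by exact_mod_cast h1
    refine h2.trans ?_
    rw [box_card]
    have h3 : ((len m : ℕ) : ℝ) = (den m : ℝ) * 3 ^ m * (m + 1) := by
      unfold len
      push_cast
      ring
    have h4 : (m + 1 : ℝ) * (2 * (B * 3 ^ m * den m)) = 2 * B * len m := by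
      rw [h3]
      ring
    rw [h4]
    push_cast
    have h5 : 2 * (L : ℝ) + 2 * B ≤ δ * (m + 1) := by
      rw [div_le_iff₀ hδ] at hN
      have : (N : ℝ) ≤ m := by exact_mod_cast hmN
      nlinarith
    have h6 : (0 : ℝ) ≤ (len m : ℝ) := by positivity
    nlinarith
  have hK : ∀ᶠ m in atTop, ∀ k ∈ K,
      (((box m).filter (fun h => h * k ∉ box m)).card : ℝ) ≤ ε / (K.card + 1) * (box m).card := by
    rw [Filter.eventually_all_finset]
    intro k _
    exact hone k _ (by positivity)
  filter_upwards [hK] with m hm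
  have hsub : bad K (box m) ⊆ K.biUnion (fun k => (box m).filter (fun h => h * k ∉ box m)) := by
    intro h hh
    unfold bad at hh
    rw [Finset.mem_filter] at hh
    obtain ⟨h1, h2⟩ := hh
    push Not at h2
    obtain ⟨k, hk, hk2⟩ := h2
    exact Finset.mem_biUnion.mpr ⟨k, hk, Finset.mem_filter.mpr ⟨h1, hk2⟩⟩
  have h1 : (bad K (box m)).card ≤ ∑ k ∈ K, ((box m).filter (fun h => h * k ∉ box m)).card :=
    (Finset.card_le_card hsub).trans Finset.card_biUnion_le
  have h2 : ((bad K (box m)).card : ℝ) ≤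
      ∑ k ∈ K, (((box m).filter (fun h => h * k ∉ box m)).card : ℝ) := by exact_mod_cast h1
  refine h2.trans ((Finset.sum_le_sum hm).trans ?_)
  rw [Finset.sum_const, nsmul_eq_mul]
  have h3 : (0 : ℝ) ≤ ((box m).card : ℝ) := by positivity
  have h4 : (K.card : ℝ) * (ε / (K.card + 1)) ≤ ε := by
    rw [mul_div_assoc', div_le_iff₀ (by positivity)]
    nlinarith
  calc (K.card : ℝ) * (ε / (K.card + 1) * (box m).card)
      = (K.card : ℝ) * (ε / (K.card + 1)) * (box m).card := by ring
    _ ≤ ε * (box m).card := mul_le_mul_of_nonneg_right h4 h3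

end GG

end MFLB
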