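import Pool.Agent.MFLB.CS

/-!
# MFLB.Main : the lower bound
-/

open Set Filter

set_option linter.unusedSectionVars false

namespace MFLB

theorem bad_mono {G : Type*} [Group G] [LinearOrder G] {K K' I : Finset G} (h : K ⊆ K') :
    bad K I ⊆ bad K' I := by
  intro x hx
  unfold bad at *
  rw [Finset.mem_filter] at *
  exact ⟨hx.1, fun hh => hx.2 (fun k hk => hh k (h hk))⟩

open Classical in
theorem near_fd_tr {k : Type} {G : Type} {r : ℕ} [CommRing k] [IsDomain k] [Group G] [LinearOrder G]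
    [MulSemiringAction G k] (hG : LeftInv G) (S : Set (PP k G r)) (hS : S.Finite)
    (v : PP k G r) (K I : Finset G)
    (hv : v ∈ (MM k G r).closure (tr (K : Set G) S ∪ tr {k : G | k ∈ K ∧ k < 1} {v})) :
    ∃ (L : PP k G r) (D : ℕ), L ≠ 0 ∧ ∀ (Ω : Type) [Field Ω] (π : k →+* Ω)
      (c : G → PP k G r → Ω) (Fq : Finset Ω),
      {y : I → Ω | ∃ x : Fin r × G → Ω, (∀ h ∈ I, ∀ u ∈ S, ev π x (h • u) = c h u) ∧
        ev π x L ≠ 0 ∧ (∀ h ∈ I, ev π x (h • v) ∈ Fq) ∧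
        ∀ h : I, y h = ev π x ((h : G) • v)}.encard ≤
        ((Fq.card ^ (bad K I).card * D : ℕ) : ℕ∞) := by
  have : Finite S := hS
  let f : (I × S) ⊕ (bad K I) → PP k G r := Sum.elim (fun p => (p.1 : G) • (p.2 : PP k G r))
    (fun h => (h : G) • v)
  let g : I → PP k G r := fun h => (h : G) • v
  have hcl : ∀ b, g b ∈ (AlgebraicIndependent.matroid k (MvPolynomial (Fin r × G) k)).closure
      (range f) := by
    intro b
    have h1 := good_translate (MM_E (k := k) (G := G) (r := r)) MM_equivar hG hv I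
    have h2 : (b : G) • v ∈ tr (I : Set G) {v} := ⟨b, b.2, v, rfl, rfl⟩
    have h3 := h1 h2
    refine (MM k G r).closure_subset_closure ?_ h3
    rintro _ (⟨h, hh, u, hu, rfl⟩ | ⟨h, hh, u, hu, rfl⟩)
    · exact ⟨Sum.inl (⟨h, hh⟩, ⟨u, hu⟩), rfl⟩
    · rw [Set.mem_singleton_iff] at hu
      subst hu
      refine ⟨Sum.inr ⟨h, ?_⟩, rfl⟩
      unfold bad
      rw [Finset.mem_filter]
      exact hh
  obtain ⟨L, D, hL, hLD⟩ := count (k := k) (Y := Fin r × G) f g hcl
  refine ⟨L, D, hL, ?_⟩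
  intro Ω _ π c Fq
  set Z : Set (I → Ω) := {y : I → Ω | ∃ x : Fin r × G → Ω,
        (∀ h ∈ I, ∀ u ∈ S, ev π x (h • u) = c h u) ∧
        ev π x L ≠ 0 ∧ (∀ h ∈ I, ev π x (h • v) ∈ Fq) ∧
        ∀ h : I, y h = ev π x ((h : G) • v)} with hZ
  -- restriction to the bad translates
  let res : (I → Ω) → (bad K I → Ω) := fun y h => y ⟨h, (Finset.mem_filter.1 h.2).1⟩
  let W : Finset (bad K I → Ω) := Fintype.piFinset (fun _ => Fq)
  have hW : W.card = Fq.card ^ (bad K I).card := by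
    simp [W, Fintype.card_piFinset]
  have hres : ∀ y ∈ Z, res y ∈ W := by
    rintro y ⟨x, _, _, hx3, hx4⟩
    rw [Fintype.mem_piFinset]
    intro h
    show y _ ∈ Fq
    rw [hx4]
    exact hx3 _ (Finset.mem_filter.1 h.2).1
  have hfib : ∀ w ∈ W, {y ∈ Z | res y = w}.encard ≤ (D : ℕ∞) := by
    intro w _
    have h1 := hLD Ω π (Sum.elim (fun p => c (p.1 : G) (p.2 : PP k G r)) (fun h => w h))
    refine (Set.encard_le_encard ?_).trans h1
    rintro y ⟨⟨x, hx1, hx2, hx3, hx4⟩, hy⟩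
    refine ⟨x, ?_, hx2, hx4⟩
    rintro (⟨h, u⟩ | h)
    · exact hx1 h h.2 u u.2
    · have h5 : res y h = w h := by rw [hy]
      rw [Sum.elim_inr, ← h5]
      show _ = y ⟨h, (Finset.mem_filter.1 h.2).1⟩
      rw [hx4]
      rfl
  have hZun : Z ⊆ ⋃ w ∈ W, {y ∈ Z | res y = w} := by
    intro y hy
    rw [mem_iUnion₂]
    exact ⟨res y, hres y hy, hy, rfl⟩
  have hZfin : Z.Finite := by
    refine Set.Finite.subset (Set.Finite.biUnion W.finite_toSet ?_) hZun
    intro w hw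
    exact Set.finite_of_encard_le_coe (hfib w hw)
  have hcard : hZfin.toFinset.card ≤ W.card * D := by
    have h1 : hZfin.toFinset ⊆ W.biUnion (fun w => hZfin.toFinset.filter (fun y => res y = w)) := by
      intro y hy
      rw [Finset.mem_biUnion]
      refine ⟨res y, hres y ((Set.Finite.mem_toFinset _).1 hy), ?_⟩
      rw [Finset.mem_filter]
      exact ⟨hy, rfl⟩
    refine (Finset.card_le_card h1).trans ?_
    refine Finset.card_biUnion_le_card_mul _ _ _ ?_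
    intro w hw
    have h2 := hfib w hw
    have h3 : {y ∈ Z | res y = w} =
        ((hZfin.toFinset.filter (fun y => res y = w) : Finset (I → Ω)) : Set (I → Ω)) := by
      ext y
      simp
    rw [h3, Set.encard_coe_eq_coe_finsetCard] at h2
    exact_mod_cast h2
  rw [hW] at hcard
  rw [← hZfin.coe_toFinset, Set.encard_coe_eq_coe_finsetCard]
  exact_mod_cast hcard


/-- numerical end -/
theorem num_end {q n r e b Δ A R : ℕ} {ε : ℝ} (hε : 0 < ε) (hq : 2 ≤ q)
    (h1 : q ^ (r * n) ≤ 2 * A) (h2 : A ≤ (Δ * q ^ b) ^ e * R)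
    (hb : ((b * e : ℕ) : ℝ) ≤ ε / 2 * n) (hn : 1 ≤ n)
    (hqB : ((2 * Δ ^ e : ℕ) : ℝ) ≤ (q : ℝ) ^ (ε / 2)) :
    (((q ^ n : ℕ)) : ℝ) ^ ((r : ℝ) - ε) ≤ (R : ℝ) := by
  have hq0 : (0 : ℝ) < q := by exact_mod_cast (by omega : 0 < q)
  have hq1 : (1 : ℝ) ≤ q := by exact_mod_cast (by omega : 1 ≤ q)
  have h3 : ((q ^ (r * n) : ℕ) : ℝ) ≤ ((2 * Δ ^ e : ℕ) : ℝ) * (q : ℝ) ^ (b * e) * R := by
    have : q ^ (r * n) ≤ (2 * Δ ^ e) * q ^ (b * e) * R := by
      calc q ^ (r * n) ≤ 2 * A := h1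
        _ ≤ 2 * ((Δ * q ^ b) ^ e * R) := by omega
        _ = (2 * Δ ^ e) * q ^ (b * e) * R := by
          rw [mul_pow, ← pow_mul]
          ring
    exact_mod_cast this
  have h4 : ((q ^ (r * n) : ℕ) : ℝ) = (q : ℝ) ^ ((r : ℝ) * n) := by
    push_cast
    rw [← Real.rpow_natCast]
    congr 1
    push_cast
    rfl
  have h5 : (q : ℝ) ^ (b * e) ≤ (q : ℝ) ^ (ε / 2 * n) := by
    rw [← Real.rpow_natCast]
    exact Real.rpow_le_rpow_of_exponent_le hq1 hb
  have h6 : ((2 * Δ ^ e : ℕ) : ℝ) ≤ (q : ℝ) ^ (ε / 2 * n) := by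
    refine hqB.trans (Real.rpow_le_rpow_of_exponent_le hq1 ?_)
    have : (1 : ℝ) ≤ n := by exact_mod_cast hn
    nlinarith
  have h7 : (q : ℝ) ^ ((r : ℝ) * n) ≤ (q : ℝ) ^ (ε * n) * R := by
    rw [h4] at h3
    refine h3.trans ?_
    have : (q : ℝ) ^ (ε * n) = (q : ℝ) ^ (ε / 2 * n) * (q : ℝ) ^ (ε / 2 * n) := by
      rw [← Real.rpow_add hq0]
      congr 1
      ring
    rw [this]
    gcongr
  have h8 : (((q ^ n : ℕ)) : ℝ) ^ ((r : ℝ) - ε) = (q : ℝ) ^ ((r : ℝ) * n) / (q : ℝ) ^ (ε * n) := by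
    push_cast
    rw [← Real.rpow_natCast, ← Real.rpow_mul hq0.le, ← Real.rpow_sub hq0]
    congr 1
    ring
  rw [h8, div_le_iff₀ (Real.rpow_pos_of_pos hq0 _), mul_comm (R : ℝ)]
  exact h7

open Classical in
/-- **The lower bound**: for every `ε` there are arbitrarily large `N` and families of
`N ^ (r - ε)` rows with `N`-valued columns whose agreement sets are closed under `Cl`. -/
theorem lower_bound {k : Type} {G : Type} {r : ℕ} [CommRing k] [IsDomain k] [Group G]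
    [LinearOrder G] [MulSemiringAction G k] (hG : LeftInv G) (F : ℕ → Finset G) (hF : Folner F)
    (hSp : ∀ c : k, c ≠ 0 → ∃ π : k →+* AlgebraicClosure (ZMod 2), π c ≠ 0)
    (E : Finset (PP k G r)) (hE : ∀ i : Fin r, xx i 1 ∈ E) (ε : ℝ) (hε : 0 < ε) (B : ℕ) :
    ∃ N : ℕ, B ≤ N ∧ ∃ R : Finset (E → Fin N), (N : ℝ) ^ ((r : ℝ) - ε) ≤ (R.card : ℝ) ∧
      ∀ ρ ∈ R, ∀ σ ∈ R, ∀ (S : Finset E) (v : E),
        (v : PP k G r) ∈ Cl (MM k G r) G (Subtype.val '' (S : Set E)) →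
        (∀ u ∈ S, ρ u = σ u) → ρ v = σ v := by
  -- witnesses
  have hK : ∀ (S : Finset E) (v : E), ∃ K : Finset G,
      (v : PP k G r) ∈ Cl (MM k G r) G (Subtype.val '' (S : Set E)) →
      (v : PP k G r) ∈ (MM k G r).closure
        (tr (K : Set G) (Subtype.val '' (S : Set E)) ∪ tr {k : G | k ∈ K ∧ k < 1} {(v : PP k G r)}) := by
    intro S v
    by_cases h : (v : PP k G r) ∈ Cl (MM k G r) G (Subtype.val '' (S : Set E))
    · obtain ⟨K, hK⟩ := h
      exact ⟨K, fun _ => hK⟩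
    · exact ⟨∅, fun h' => absurd h' h⟩
  choose K hK using hK
  let Kall : Finset G := (Finset.univ : Finset (Finset E × E)).biUnion (fun p => K p.1 p.2)
  have hKall : ∀ S v, K S v ⊆ Kall := by
    intro S v x hx
    exact Finset.mem_biUnion.2 ⟨(S, v), Finset.mem_univ _, hx⟩
  -- the Foelner set
  set e : ℕ := Fintype.card E with he
  have hε' : 0 < ε / (2 * ((e : ℝ) + 1)) := by positivity
  obtain ⟨m, hm⟩ := (hF.2 Kall _ hε').exists
  set I : Finset G := F m with hI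
  have hIpos : 1 ≤ I.card := Finset.card_pos.2 (hF.1 m)
  set b : ℕ := (bad Kall I).card with hb
  have hbe : ((b * e : ℕ) : ℝ) ≤ ε / 2 * (I.card : ℝ) := by
    push_cast
    have he0 : (0 : ℝ) ≤ e := by positivity
    have hI0 : (0 : ℝ) ≤ I.card := by positivity
    calc (b : ℝ) * e ≤ (ε / (2 * ((e : ℝ) + 1)) * I.card) * e := by gcongr
      _ = ε / 2 * I.card * (e / (e + 1)) := by field_simp
      _ ≤ ε / 2 * I.card * 1 := by
        gcongr
        rw [div_le_one (by positivity)]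
        linarith
      _ = _ := by ring
  -- near functional dependencies
  have hLD : ∀ (S : Finset E) (v : E), ∃ (L : PP k G r) (D : ℕ), L ≠ 0 ∧
      ((v : PP k G r) ∈ Cl (MM k G r) G (Subtype.val '' (S : Set E)) →
      ∀ (Ω : Type) [Field Ω] (π : k →+* Ω) (c : G → PP k G r → Ω) (Fq : Finset Ω),
      {y : I → Ω | ∃ x : Fin r × G → Ω,
        (∀ h ∈ I, ∀ u ∈ Subtype.val '' (S : Set E), ev π x (h • u) = c h u) ∧
        ev π x L ≠ 0 ∧ (∀ h ∈ I, ev π x (h • (v : PP k G r)) ∈ Fq) ∧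
        ∀ h : I, y h = ev π x ((h : G) • (v : PP k G r))}.encard ≤
        ((Fq.card ^ (bad (K S v) I).card * D : ℕ) : ℕ∞)) := by
    intro S v
    by_cases h : (v : PP k G r) ∈ Cl (MM k G r) G (Subtype.val '' (S : Set E))
    · obtain ⟨L, D, hL, hD⟩ := near_fd_tr hG (Subtype.val '' (S : Set E))
        ((S.finite_toSet).image _) (v : PP k G r) (K S v) I (hK S v h)
      exact ⟨L, D, hL, fun _ => hD⟩
    · exact ⟨1, 0, one_ne_zero, fun h' => absurd h' h⟩
  choose L D hL hLD using hLD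
  let D0 : ℕ := ∑ p : Finset E × E, D p.1 p.2 + 1
  have hD0 : ∀ S v, D S v ≤ D0 := by
    intro S v
    have : D S v ≤ ∑ p : Finset E × E, D p.1 p.2 :=
      Finset.single_le_sum (f := fun p : Finset E × E => D p.1 p.2) (fun _ _ => Nat.zero_le _)
        (Finset.mem_univ (S, v))
    omega
  have hD0pos : 1 ≤ D0 := by simp only [D0]; omega
  set Δ : ℕ := 4 * 2 ^ e * D0 with hΔ
  -- size of the field
  obtain ⟨B1, hB1⟩ : ∃ B1 : ℕ, ((2 * Δ ^ e : ℕ) : ℝ) ≤ (B1 : ℝ) ^ (ε / 2) := by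
    have : Tendsto (fun n : ℕ => (n : ℝ) ^ (ε / 2)) atTop atTop :=
      (tendsto_rpow_atTop (by positivity)).comp tendsto_natCast_atTop_atTop
    exact (this.eventually_ge_atTop _).exists
  let Ls : Finset (MvPolynomial (Fin r × G) k) :=
    (Finset.univ : Finset (Finset E × E)).image (fun p => L p.1 p.2)
  let Ts : Finset (PP k G r) := (I ×ˢ E).image (fun p => (p.1 • p.2 : PP k G r))
  let Y0 : Finset (Fin r × G) := Finset.univ ×ˢ I
  obtain ⟨π, Fq, A, hB, hAc, hinj, hval, hLs, hTs⟩ := sz' (k := k) (Y := Fin r × G) hSp Y0 Ls Ts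
    (by
      intro l hl
      obtain ⟨p, _, rfl⟩ := Finset.mem_image.1 hl
      exact hL p.1 p.2) (max (max B B1) 2)
  set q : ℕ := Fq.card with hq
  have hq2 : 2 ≤ q := le_trans (le_max_right _ _) hB
  have hqB : B ≤ q := le_trans (le_trans (le_max_left _ _) (le_max_left _ _)) hB
  have hqB1 : B1 ≤ q := le_trans (le_trans (le_max_right _ _) (le_max_left _ _)) hB
  have hY0 : Y0.card = r * I.card := by
    simp [Y0, Finset.card_product]
  -- the rows
  let row : (Fin r × G → AlgebraicClosure (ZMod 2)) → (E → (I → AlgebraicClosure (ZMod 2))) :=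
    fun x v h => ev π x ((h : G) • (v : PP k G r))
  have hrowval : ∀ x ∈ A, ∀ (v : E) (h : I), row x v h ∈ Fq := by
    intro x hx v h
    apply hTs x hx
    show ((h : G) • (v : PP k G r)) ∈ Ts
    simp only [Ts, Finset.mem_image, Finset.mem_product]
    exact ⟨((h : G), (v : PP k G r)), ⟨h.2, v.2⟩, rfl⟩
  have hrowinj : ∀ x ∈ A, ∀ y ∈ A, row x = row y → x = y := by
    intro x hx y hy hxy
    apply hinj x hx y hy
    rintro ⟨i, h⟩ hih
    have hh : h ∈ I := (Finset.mem_product.1 hih).2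
    have h1 := congrFun (congrFun hxy ⟨xx i 1, hE i⟩) ⟨h, hh⟩
    have h2 : ∀ z : Fin r × G → AlgebraicClosure (ZMod 2),
        row z ⟨xx i 1, hE i⟩ ⟨h, hh⟩ = z (i, h) := by
      intro z
      show ev π z (h • (xx i 1 : PP k G r)) = z (i, h)
      rw [smul_xx, mul_one, ev_xx]
    rw [h2, h2] at h1
    exact h1
  let Rows : Finset (E → (I → AlgebraicClosure (ZMod 2))) := A.image row
  have hRows : Rows.card = A.card :=
    Finset.card_image_of_injOn (fun x hx y hy hxy => hrowinj x hx y hy hxy)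
  -- the closure relation
  let InCl : Finset E → E → Prop := fun S v =>
    (v : PP k G r) ∈ Cl (MM k G r) G (Subtype.val '' (S : Set E))
  have hfib : ∀ (S : Finset E) (v : E), InCl S v → ∀ ρ ∈ Rows,
      ((Rows.filter (fun ρ' => ∀ u ∈ S, ρ' u = ρ u)).image (fun ρ' => ρ' v)).card ≤ D0 * q ^ b := by
    intro S v hv ρ hρ
    obtain ⟨x0, hx0, rfl⟩ := Finset.mem_image.1 hρ
    have h1 := hLD S v hv (AlgebraicClosure (ZMod 2)) π (fun h u => ev π x0 (h • u)) Fq
    have h2 : (((Rows.filter (fun ρ' => ∀ u ∈ S, ρ' u = row x0 u)).image (fun ρ' => ρ' v) :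
        Finset (I → AlgebraicClosure (ZMod 2))) : Set (I → AlgebraicClosure (ZMod 2))) ⊆
        {y : I → AlgebraicClosure (ZMod 2) | ∃ x : Fin r × G → AlgebraicClosure (ZMod 2),
        (∀ h ∈ I, ∀ u ∈ Subtype.val '' (S : Set E), ev π x (h • u) = ev π x0 (h • u)) ∧
        ev π x (L S v) ≠ 0 ∧ (∀ h ∈ I, ev π x (h • (v : PP k G r)) ∈ Fq) ∧
        ∀ h : I, y h = ev π x ((h : G) • (v : PP k G r))} := by
      intro y hy
      obtain ⟨ρ', hρ', rfl⟩ := Finset.mem_image.1 (Finset.mem_coe.1 hy)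
      obtain ⟨hρ'1, hρ'2⟩ := Finset.mem_filter.1 hρ'
      obtain ⟨x, hx, rfl⟩ := Finset.mem_image.1 hρ'1
      refine ⟨x, ?_, ?_, ?_, ?_⟩
      · rintro h hh _ ⟨u, hu, rfl⟩
        exact congrFun (hρ'2 u hu) ⟨h, hh⟩
      · exact hLs x hx _ (Finset.mem_image.2 ⟨(S, v), Finset.mem_univ _, rfl⟩)
      · intro h hh
        exact hrowval x hx v ⟨h, hh⟩
      · intro h
        rfl
    have h3 := (Set.encard_le_encard h2).trans h1
    rw [Set.encard_coe_eq_coe_finsetCard] at h3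
    have h4 : ((Rows.filter (fun ρ' => ∀ u ∈ S, ρ' u = row x0 u)).image (fun ρ' => ρ' v)).card ≤
        q ^ (bad (K S v) I).card * D S v := by exact_mod_cast h3
    refine h4.trans ?_
    rw [mul_comm]
    exact Nat.mul_le_mul (hD0 S v)
      (Nat.pow_le_pow_right (by omega) (Finset.card_le_card (bad_mono (hKall S v))))
  obtain ⟨R, hRsub, hRcard, hRfd⟩ := colour InCl Rows (D0 * q ^ b)
    (Nat.mul_pos hD0pos (Nat.pow_pos (by omega))) hfib
  -- transfer to `Fin N`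
  let W : Finset (I → AlgebraicClosure (ZMod 2)) := Fintype.piFinset (fun _ => Fq)
  have hW : W.card = q ^ I.card := by
    simp [W, Fintype.card_piFinset, hq]
  have hNpos : 0 < q ^ I.card := Nat.pow_pos (by omega)
  obtain ⟨tra, htra⟩ : ∃ tra : (I → AlgebraicClosure (ZMod 2)) → Fin (q ^ I.card),
      Set.InjOn tra (W : Set (I → AlgebraicClosure (ZMod 2))) := by
    let eq := (W.equivFin).trans (finCongr hW)
    refine ⟨fun y => if h : y ∈ W then eq ⟨y, h⟩ else ⟨0, hNpos⟩, ?_⟩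
    intro y hy z hz hyz
    have hy' : y ∈ W := hy
    have hz' : z ∈ W := hz
    simp only [dif_pos hy', dif_pos hz'] at hyz
    have := eq.injective hyz
    exact congrArg Subtype.val this
  have hRW : ∀ ρ ∈ R, ∀ v : E, ρ v ∈ W := by
    intro ρ hρ v
    obtain ⟨x, hx, rfl⟩ := Finset.mem_image.1 (hRsub hρ)
    rw [Fintype.mem_piFinset]
    intro h
    exact hrowval x hx v h
  let R' : Finset (E → Fin (q ^ I.card)) := R.image (fun ρ v => tra (ρ v))
  have hR'card : R'.card = R.card := by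
    apply Finset.card_image_of_injOn
    intro ρ hρ σ hσ h
    funext v
    exact htra (hRW ρ hρ v) (hRW σ hσ v) (congrFun h v)
  refine ⟨q ^ I.card, ?_, R', ?_, ?_⟩
  · exact hqB.trans (Nat.le_self_pow (by omega) q)
  · rw [hR'card]
    refine num_end (A := A.card) (Δ := Δ) (b := b) (e := e) hε hq2 ?_ ?_ hbe hIpos ?_
    · rw [← hY0]
      exact hAc
    · rw [← hRows]
      refine hRcard.trans ?_
      rw [hΔ, mul_assoc (4 * 2 ^ e) D0 (q ^ b)]
    · refine hB1.trans ?_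
      have : (B1 : ℝ) ≤ q := by exact_mod_cast hqB1
      exact Real.rpow_le_rpow (by positivity) this (by positivity)
  · intro ρ hρ σ hσ S v hv hagree
    obtain ⟨ρ0, hρ0, rfl⟩ := Finset.mem_image.1 hρ
    obtain ⟨σ0, hσ0, rfl⟩ := Finset.mem_image.1 hσ
    show tra (ρ0 v) = tra (σ0 v)
    rw [hRfd ρ0 hρ0 σ0 hσ0 S v hv (fun u hu => htra (hRW ρ0 hρ0 u) (hRW σ0 hσ0 u) (hagree u hu))]

end MFLB
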