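import Mathlib

/-!
# MFLB.Mat : matroids with an action of a left ordered group

`M` is a matroid on `α` (ground set everything), `G` is a group with a left invariant linear
order acting on `α` and preserving the closure.  `Cl` is the closure operator
`v` depends on the translates of `S` and on smaller translates of itself.
-/

open Set

set_option linter.unusedSectionVars false

namespace MFLB

variable {α : Type*} {G : Type*} [Group G] [LinearOrder G] [MulAction G α]

/-- translates of `S` by the elements of `I` -/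
def tr (I : Set G) (S : Set α) : Set α := {a | ∃ h ∈ I, ∃ u ∈ S, a = h • u}

/-- `v` is in `Cl M G S` iff it lies in the matroid closure of translates of `S` and of
finitely many strictly smaller translates of itself -/
def Cl (M : Matroid α) (G : Type*) [Group G] [LinearOrder G] [MulAction G α]
    (S : Set α) : Set α :=
  {v | ∃ K : Finset G, v ∈ M.closure (tr (K : Set G) S ∪ tr {k : G | k ∈ K ∧ k < 1} {v})}

theorem tr_mono {I J : Set G} {S T : Set α} (h : I ⊆ J) (h' : S ⊆ T) : tr I S ⊆ tr J T := by
  rintro a ⟨x, hx, u, hu, rfl⟩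
  exact ⟨x, h hx, u, h' hu, rfl⟩

theorem tr_finite {I : Set G} {S : Set α} (hI : I.Finite) (hS : S.Finite) : (tr I S).Finite := by
  refine (Set.Finite.image2 (fun h u => h • u) hI hS).subset ?_
  rintro a ⟨x, hx, u, hu, rfl⟩
  exact ⟨x, hx, u, hu, rfl⟩

theorem tr_insert (I : Set G) (v : α) (S : Set α) : tr I (insert v S) = tr I S ∪ tr I {v} := by
  ext a
  constructor
  · rintro ⟨x, hx, u, hu, rfl⟩
    rcases hu with rfl | hu
    · exact Or.inr ⟨x, hx, u, rfl, rfl⟩
    · exact Or.inl ⟨x, hx, u, hu, rfl⟩
  · rintro (⟨x, hx, u, hu, rfl⟩ | ⟨x, hx, u, hu, rfl⟩)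
    · exact ⟨x, hx, u, Or.inr hu, rfl⟩
    · exact ⟨x, hx, u, Or.inl hu, rfl⟩

theorem tr_union (I : Set G) (S T : Set α) : tr I (S ∪ T) = tr I S ∪ tr I T := by
  ext a
  constructor
  · rintro ⟨x, hx, u, hu | hu, rfl⟩
    · exact Or.inl ⟨x, hx, u, hu, rfl⟩
    · exact Or.inr ⟨x, hx, u, hu, rfl⟩
  · rintro (⟨x, hx, u, hu, rfl⟩ | ⟨x, hx, u, hu, rfl⟩)
    · exact ⟨x, hx, u, Or.inl hu, rfl⟩
    · exact ⟨x, hx, u, Or.inr hu, rfl⟩

/-- the closure is preserved by translations -/
def Equivar (M : Matroid α) (G : Type*) [Group G] [MulAction G α] : Prop :=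
  ∀ (h : G) (X : Set α) (a : α), a ∈ M.closure X → h • a ∈ M.closure ((fun x => h • x) '' X)

/-- the order of `G` is left invariant -/
def LeftInv (G : Type*) [Group G] [LinearOrder G] : Prop :=
  ∀ a b c : G, b < c → a * b < a * c

theorem good_translate {M : Matroid α} (hE : M.E = univ) (hM : Equivar M G)
    (hG : LeftInv G) {S : Set α} {v : α} {K : Finset G}
    (hv : v ∈ M.closure (tr (K : Set G) S ∪ tr {k : G | k ∈ K ∧ k < 1} {v}))
    (I : Finset G) :
    tr (I : Set G) {v} ⊆
      M.closure (tr (I : Set G) S ∪ tr {h : G | h ∈ I ∧ ¬ ∀ k ∈ K, h * k ∈ I} {v}) := by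
  have key : ∀ J : Finset G, J ⊆ I → (∀ x ∈ I, ∀ y ∈ J, x ≤ y → x ∈ J) →
      tr (J : Set G) {v} ⊆
      M.closure (tr (I : Set G) S ∪ tr {h : G | h ∈ I ∧ ¬ ∀ k ∈ K, h * k ∈ I} {v}) := by
    intro J
    induction J using Finset.induction_on_max with
    | empty =>
      intro _ _
      rintro a ⟨x, hx, _⟩
      simp at hx
    | insert h J hJ ih =>
      intro hJI hdown
      have hJI' : J ⊆ I := fun x hx => hJI (Finset.mem_insert_of_mem hx)
      have hdown' : ∀ x ∈ I, ∀ y ∈ J, x ≤ y → x ∈ J := by
        intro x hx y hy hxy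
        have h1 := hdown x hx y (Finset.mem_insert_of_mem hy) hxy
        rcases Finset.mem_insert.1 h1 with rfl | h1
        · exact absurd (lt_of_lt_of_le (hJ y hy) hxy) (lt_irrefl _)
        · exact h1
      have ih' := ih hJI' hdown'
      have hhI : h ∈ I := hJI (Finset.mem_insert_self _ _)
      rintro a ⟨x, hx, u, hu, rfl⟩
      rw [Set.mem_singleton_iff] at hu
      subst hu
      rcases Finset.mem_insert.1 (Finset.mem_coe.1 hx) with rfl | hx
      · by_cases hgood : ∀ k ∈ K, x * k ∈ I
        · have h1 := hM x _ _ hv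
          have h2 : (fun y => x • y) '' (tr (K : Set G) S ∪ tr {k : G | k ∈ K ∧ k < 1} {u}) ⊆
              M.closure (tr (I : Set G) S ∪ tr {h : G | h ∈ I ∧ ¬ ∀ k ∈ K, h * k ∈ I} {u}) := by
            rintro _ ⟨y, (⟨k, hk, s, hs, rfl⟩ | ⟨k, hk, s, hs, rfl⟩), rfl⟩
            · apply M.subset_closure _ (by rw [hE]; exact subset_univ _)
              left
              exact ⟨x * k, hgood k hk, s, hs, by simp [mul_smul]⟩
            · rw [Set.mem_singleton_iff] at hs
              subst hs
              have hlt : x * k < x := by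
                have := hG x k 1 hk.2
                rwa [mul_one] at this
              have hmem : x * k ∈ J := by
                have h3 := hdown (x * k) (hgood k hk.1) x (Finset.mem_insert_self _ _) hlt.le
                rcases Finset.mem_insert.1 h3 with h3 | h3
                · exact absurd h3 hlt.ne
                · exact h3
              apply ih'
              exact ⟨x * k, hmem, s, rfl, by simp [mul_smul]⟩
          have h3 := M.closure_subset_closure h2 h1
          rwa [M.closure_closure] at h3
        · apply M.subset_closure _ (by rw [hE]; exact subset_univ _)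
          right
          exact ⟨x, ⟨hhI, hgood⟩, u, rfl, rfl⟩
      · exact ih' ⟨x, hx, u, rfl, rfl⟩
  exact key I (Finset.Subset.refl _) (fun x hx _ _ _ => hx)

/-- dependent case : the rank grows by at most the number of bad translates -/
theorem rank_dep {M : Matroid α} (hE : M.E = univ) (hM : Equivar M G)
    (hG : LeftInv G) {S : Set α} {v : α} {K : Finset G}
    (hv : v ∈ M.closure (tr (K : Set G) S ∪ tr {k : G | k ∈ K ∧ k < 1} {v}))
    (I : Finset G) :
    M.eRk (tr (I : Set G) (insert v S)) ≤ M.eRk (tr (I : Set G) S) +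
      ((I.filter (fun h => ¬ ∀ k ∈ K, h * k ∈ I)).card : ℕ∞) := by
  have h1 := good_translate hE hM hG hv I
  have h2 : tr (I : Set G) (insert v S) ⊆
      M.closure (tr (I : Set G) S ∪ tr {h : G | h ∈ I ∧ ¬ ∀ k ∈ K, h * k ∈ I} {v}) := by
    rw [tr_insert]
    refine union_subset ?_ h1
    exact (subset_union_left).trans (M.subset_closure _ (by rw [hE]; exact subset_univ _))
  have h3 := M.eRk_mono h2
  rw [M.eRk_closure_eq] at h3
  refine h3.trans ((M.eRk_union_le_eRk_add_encard _ _).trans ?_)
  gcongr
  have h4 : tr {h : G | h ∈ I ∧ ¬ ∀ k ∈ K, h * k ∈ I} {v} =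
      (fun h : G => h • v) '' ((I.filter (fun h => ¬ ∀ k ∈ K, h * k ∈ I) : Finset G) : Set G) := by
    ext a
    constructor
    · rintro ⟨h, hh, u, hu, rfl⟩
      rw [Set.mem_singleton_iff] at hu
      subst hu
      exact ⟨h, by simpa using hh, rfl⟩
    · rintro ⟨h, hh, rfl⟩
      exact ⟨h, by simpa using hh, v, rfl, rfl⟩
  rw [h4]
  refine (Set.encard_image_le _ _).trans ?_
  rw [Set.encard_coe_eq_coe_finsetCard]

/-- independent case : the rank grows by the number of translates -/
theorem rank_indep {M : Matroid α} (hE : M.E = univ) (hM : Equivar M G)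
    (hG : LeftInv G) {S : Set α} {v : α} (hv : v ∉ Cl M G S) (I : Finset G) :
    M.eRk (tr (I : Set G) (insert v S)) = M.eRk (tr (I : Set G) S) + (I.card : ℕ∞) := by
  rw [tr_insert]
  have key : ∀ J : Finset G, J ⊆ I →
      M.eRk (tr (I : Set G) S ∪ tr (J : Set G) {v}) = M.eRk (tr (I : Set G) S) + (J.card : ℕ∞) := by
    intro J
    induction J using Finset.induction_on_max with
    | empty =>
      intro _
      have : tr ((∅ : Finset G) : Set G) {v} = ∅ := by
        ext a
        simp [tr]
      rw [this]
      simp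
    | insert h J hJ ih =>
      intro hJI
      have hJI' : J ⊆ I := fun x hx => hJI (Finset.mem_insert_of_mem hx)
      have hnot : h ∉ J := fun hh => lt_irrefl _ (hJ h hh)
      have h0 : tr ((insert h J : Finset G) : Set G) {v} = insert (h • v) (tr (J : Set G) {v}) := by
        ext a
        constructor
        · rintro ⟨x, hx, u, hu, rfl⟩
          rw [Set.mem_singleton_iff] at hu
          subst hu
          rcases Finset.mem_insert.1 (Finset.mem_coe.1 hx) with rfl | hx
          · exact Or.inl rfl
          · exact Or.inr ⟨x, hx, u, rfl, rfl⟩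
        · rintro (rfl | ⟨x, hx, u, hu, rfl⟩)
          · exact ⟨h, by simp, v, rfl, rfl⟩
          · exact ⟨x, by simp [Finset.mem_coe.1 hx], u, hu, rfl⟩
      rw [h0, union_insert, Finset.card_insert_of_notMem hnot]
      have h1 : h • v ∉ M.closure (tr (I : Set G) S ∪ tr (J : Set G) {v}) := by
        intro hmem
        apply hv
        refine ⟨I.image (fun x => h⁻¹ * x), ?_⟩
        have h2 := hM h⁻¹ _ _ hmem
        rw [inv_smul_smul] at h2
        refine M.closure_subset_closure ?_ h2
        rintro _ ⟨y, (⟨x, hx, s, hs, rfl⟩ | ⟨x, hx, s, hs, rfl⟩), rfl⟩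
        · left
          exact ⟨h⁻¹ * x, by simpa using hx, s, hs, by simp [mul_smul]⟩
        · right
          refine ⟨h⁻¹ * x, ⟨?_, ?_⟩, s, hs, by simp [mul_smul]⟩
          · simpa using hJI' hx
          · have := hG h⁻¹ x h (hJ x hx)
            rwa [inv_mul_cancel] at this
      rw [M.eRk_insert_eq_add_one ⟨by rw [hE]; exact mem_univ _, h1⟩, ih hJI']
      push_cast
      rw [add_assoc]
  exact key I (Finset.Subset.refl _)

end MFLB
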