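import Pool.Agent.MFLB.Mat

/-!
# MFLB.Rank : the integer valued rank function along a Foelner sequence
-/

open Set Filter Topology

set_option linter.unusedSectionVars false

namespace MFLB

variable {α : Type*} {G : Type*} [Group G] [LinearOrder G] [MulAction G α]

/-- the elements of `I` with a `K`-neighbour outside `I` -/
def bad (K I : Finset G) : Finset G := I.filter (fun h => ¬ ∀ k ∈ K, h * k ∈ I)

/-- Foelner sequences -/
def Folner (F : ℕ → Finset G) : Prop :=
  (∀ m, (F m).Nonempty) ∧
    ∀ K : Finset G, ∀ ε : ℝ, 0 < ε → ∀ᶠ m in atTop, ((bad K (F m)).card : ℝ) ≤ ε * (F m).card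

/-- rank of the `I`-translates of `S` -/
noncomputable def rkf (M : Matroid α) (I : Finset G) (S : Set α) : ℕ :=
  (M.eRk (tr (I : Set G) S)).toNat

theorem rkf_coe (M : Matroid α) (I : Finset G) {S : Set α} (hS : S.Finite) :
    ((rkf M I S : ℕ) : ℕ∞) = M.eRk (tr (I : Set G) S) := by
  unfold rkf
  apply ENat.natCast_toNat
  rw [Matroid.eRk_ne_top_iff]
  exact Matroid.isRkFinite_of_finite _ (tr_finite I.finite_toSet hS)

theorem rkf_empty (M : Matroid α) (I : Finset G) : rkf M I (∅ : Set α) = 0 := by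
  have : tr (I : Set G) (∅ : Set α) = ∅ := by
    ext a
    simp [tr]
  unfold rkf
  rw [this]
  simp

theorem rkf_mono (M : Matroid α) (I : Finset G) {S T : Set α} (hT : T.Finite) (h : S ⊆ T) :
    rkf M I S ≤ rkf M I T := by
  have h1 : ((rkf M I S : ℕ) : ℕ∞) ≤ ((rkf M I T : ℕ) : ℕ∞) := by
    rw [rkf_coe M I (hT.subset h), rkf_coe M I hT]
    exact M.eRk_mono (tr_mono (Subset.refl _) h)
  exact_mod_cast h1

theorem rkf_submod (M : Matroid α) (I : Finset G) {S T : Set α} (hS : S.Finite) (hT : T.Finite) :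
    rkf M I (S ∪ T) + rkf M I (S ∩ T) ≤ rkf M I S + rkf M I T := by
  have h1 : ((rkf M I (S ∪ T) : ℕ) : ℕ∞) + ((rkf M I (S ∩ T) : ℕ) : ℕ∞) ≤
      ((rkf M I S : ℕ) : ℕ∞) + ((rkf M I T : ℕ) : ℕ∞) := by
    rw [rkf_coe M I hS, rkf_coe M I hT, rkf_coe M I (hS.union hT),
      rkf_coe M I (hS.subset inter_subset_left), tr_union]
    refine le_trans ?_ (M.eRk_inter_add_eRk_union_le _ _)
    rw [add_comm]
    gcongr
    apply M.eRk_mono
    exact subset_inter (tr_mono (Subset.refl _) inter_subset_left)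
      (tr_mono (Subset.refl _) inter_subset_right)
  exact_mod_cast h1

theorem rkf_dep {M : Matroid α} (hE : M.E = univ) (hM : Equivar M G)
    (hG : LeftInv G) {S : Set α} (hS : S.Finite) {v : α} {K : Finset G}
    (hv : v ∈ M.closure (tr (K : Set G) S ∪ tr {k : G | k ∈ K ∧ k < 1} {v}))
    (I : Finset G) :
    rkf M I (insert v S) ≤ rkf M I S + (bad K I).card := by
  have h1 := rank_dep hE hM hG hv I
  rw [← rkf_coe M I hS, ← rkf_coe M I (hS.insert v)] at h1
  exact_mod_cast h1

theorem rkf_indep {M : Matroid α} (hE : M.E = univ) (hM : Equivar M G)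
    (hG : LeftInv G) {S : Set α} (hS : S.Finite) {v : α} (hv : v ∉ Cl M G S) (I : Finset G) :
    rkf M I (insert v S) = rkf M I S + I.card := by
  have h1 := rank_indep hE hM hG hv I
  rw [← rkf_coe M I hS, ← rkf_coe M I (hS.insert v)] at h1
  exact_mod_cast h1

/-- the property: `d` is the asymptotic rank of `S` -/
def IsRk (M : Matroid α) (F : ℕ → Finset G) (S : Set α) (d : ℕ) : Prop :=
  Tendsto (fun m => (rkf M (F m) S : ℝ) / ((F m).card : ℝ)) atTop (𝓝 (d : ℝ))

theorem IsRk.unique {M : Matroid α} {F : ℕ → Finset G} {S : Set α} {d e : ℕ}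
    (h : IsRk M F S d) (h' : IsRk M F S e) : d = e := by
  have := tendsto_nhds_unique h h'
  exact_mod_cast this

theorem isRk_empty (M : Matroid α) (F : ℕ → Finset G) : IsRk M F (∅ : Set α) 0 := by
  unfold IsRk
  simp only [rkf_empty]
  simp

theorem isRk_insert_dep {M : Matroid α} (hE : M.E = univ) (hM : Equivar M G)
    (hG : LeftInv G) {F : ℕ → Finset G} (hF : Folner F) {S : Set α} (hS : S.Finite) {v : α}
    (hv : v ∈ Cl M G S) {d : ℕ} (hd : IsRk M F S d) : IsRk M F (insert v S) d := by
  obtain ⟨K, hK⟩ := hv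
  have hb : Tendsto (fun m => ((bad K (F m)).card : ℝ) / ((F m).card : ℝ)) atTop (𝓝 0) := by
    rw [Metric.tendsto_atTop]
    intro ε hε
    obtain ⟨N, hN⟩ := eventually_atTop.1 (hF.2 K (ε / 2) (by positivity))
    refine ⟨N, fun m hm => ?_⟩
    have h1 := hN m hm
    have hpos : (0 : ℝ) < (F m).card := by
      exact_mod_cast (hF.1 m).card_pos
    rw [Real.dist_eq, sub_zero, abs_of_nonneg (by positivity), div_lt_iff₀ hpos]
    nlinarith
  have h0 : Tendsto (fun m => (rkf M (F m) S : ℝ) / ((F m).card : ℝ) +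
      ((bad K (F m)).card : ℝ) / ((F m).card : ℝ)) atTop (𝓝 ((d : ℝ) + 0)) := hd.add hb
  rw [add_zero] at h0
  refine tendsto_of_tendsto_of_tendsto_of_le_of_le hd h0 ?_ ?_
  · intro m
    have hpos : (0 : ℝ) < (F m).card := by
      exact_mod_cast (hF.1 m).card_pos
    have h1 := rkf_mono M (F m) (hS.insert v) (subset_insert v S)
    show (rkf M (F m) S : ℝ) / ((F m).card : ℝ) ≤ (rkf M (F m) (insert v S) : ℝ) / ((F m).card : ℝ)
    gcongr
  · intro m
    have hpos : (0 : ℝ) < (F m).card := by
      exact_mod_cast (hF.1 m).card_pos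
    have h1 := rkf_dep hE hM hG hS hK (F m)
    show (rkf M (F m) (insert v S) : ℝ) / ((F m).card : ℝ) ≤
      (rkf M (F m) S : ℝ) / ((F m).card : ℝ) + ((bad K (F m)).card : ℝ) / ((F m).card : ℝ)
    rw [← add_div]
    gcongr
    exact_mod_cast h1

theorem isRk_insert_indep {M : Matroid α} (hE : M.E = univ) (hM : Equivar M G)
    (hG : LeftInv G) {F : ℕ → Finset G} (hF : Folner F) {S : Set α} (hS : S.Finite) {v : α}
    (hv : v ∉ Cl M G S) {d : ℕ} (hd : IsRk M F S d) : IsRk M F (insert v S) (d + 1) := by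
  unfold IsRk at *
  have h0 : (fun m => (rkf M (F m) (insert v S) : ℝ) / ((F m).card : ℝ)) =
      fun m => (rkf M (F m) S : ℝ) / ((F m).card : ℝ) + 1 := by
    funext m
    have hpos : (0 : ℝ) < (F m).card := by
      exact_mod_cast (hF.1 m).card_pos
    rw [rkf_indep hE hM hG hS hv (F m)]
    push_cast
    field_simp
  rw [h0]
  push_cast
  exact hd.add_const 1

theorem exists_isRk {M : Matroid α} (hE : M.E = univ) (hM : Equivar M G)
    (hG : LeftInv G) {F : ℕ → Finset G} (hF : Folner F) {S : Set α} (hS : S.Finite) :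
    ∃ d : ℕ, IsRk M F S d := by
  induction S, hS using Set.Finite.induction_on with
  | empty => exact ⟨0, isRk_empty M F⟩
  | @insert v S _ hS ih =>
    obtain ⟨d, hd⟩ := ih
    by_cases hv : v ∈ Cl M G S
    · exact ⟨d, isRk_insert_dep hE hM hG hF hS hv hd⟩
    · exact ⟨d + 1, isRk_insert_indep hE hM hG hF hS hv hd⟩

/-- rank systems: integer valued submodular rank functions on the finite subsets of `E` -/
structure RankSys (E : Type*) [DecidableEq E] where
  rk : Finset E → ℕ
  rk_empty : rk ∅ = 0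
  rk_insert_le : ∀ (v : E) (S : Finset E), rk (insert v S) ≤ rk S + 1
  rk_mono : ∀ {S T : Finset E}, S ⊆ T → rk S ≤ rk T
  rk_submod : ∀ S T : Finset E, rk (S ∪ T) + rk (S ∩ T) ≤ rk S + rk T

/-- `v` is in the closure of `S` -/
def RankSys.InCl {E : Type*} [DecidableEq E] (R : RankSys E) (S : Finset E) (v : E) : Prop :=
  R.rk (insert v S) = R.rk S

/-- closed sets -/
def RankSys.Flat {E : Type*} [DecidableEq E] (R : RankSys E) (A : Finset E) : Prop :=
  ∀ v : E, R.InCl A v → v ∈ A

/-- the asymptotic rank -/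
noncomputable def drk (M : Matroid α) (F : ℕ → Finset G) (S : Set α) : ℕ :=
  open Classical in if h : ∃ d : ℕ, IsRk M F S d then h.choose else 0

theorem drk_spec {M : Matroid α} (hE : M.E = univ) (hM : Equivar M G)
    (hG : LeftInv G) {F : ℕ → Finset G} (hF : Folner F) {S : Set α} (hS : S.Finite) :
    IsRk M F S (drk M F S) := by
  have h := exists_isRk hE hM hG hF hS
  unfold drk
  rw [dif_pos h]
  exact h.choose_spec

theorem drk_insert_dep {M : Matroid α} (hE : M.E = univ) (hM : Equivar M G)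
    (hG : LeftInv G) {F : ℕ → Finset G} (hF : Folner F) {S : Set α} (hS : S.Finite) {v : α}
    (hv : v ∈ Cl M G S) : drk M F (insert v S) = drk M F S :=
  (drk_spec hE hM hG hF (hS.insert v)).unique
    (isRk_insert_dep hE hM hG hF hS hv (drk_spec hE hM hG hF hS))

theorem drk_insert_indep {M : Matroid α} (hE : M.E = univ) (hM : Equivar M G)
    (hG : LeftInv G) {F : ℕ → Finset G} (hF : Folner F) {S : Set α} (hS : S.Finite) {v : α}
    (hv : v ∉ Cl M G S) : drk M F (insert v S) = drk M F S + 1 :=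
  (drk_spec hE hM hG hF (hS.insert v)).unique
    (isRk_insert_indep hE hM hG hF hS hv (drk_spec hE hM hG hF hS))

theorem drk_mem_Cl_iff {M : Matroid α} (hE : M.E = univ) (hM : Equivar M G)
    (hG : LeftInv G) {F : ℕ → Finset G} (hF : Folner F) {S : Set α} (hS : S.Finite) {v : α} :
    drk M F (insert v S) = drk M F S ↔ v ∈ Cl M G S := by
  constructor
  · intro h
    by_contra hv
    have := drk_insert_indep hE hM hG hF hS hv
    omega
  · exact drk_insert_dep hE hM hG hF hS

theorem drk_mono {M : Matroid α} (hE : M.E = univ) (hM : Equivar M G)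
    (hG : LeftInv G) {F : ℕ → Finset G} (hF : Folner F) {S T : Set α} (hT : T.Finite)
    (h : S ⊆ T) : drk M F S ≤ drk M F T := by
  have h1 := drk_spec hE hM hG hF (hT.subset h)
  have h2 := drk_spec hE hM hG hF hT
  have h3 : ((drk M F S : ℕ) : ℝ) ≤ ((drk M F T : ℕ) : ℝ) := by
    refine le_of_tendsto_of_tendsto' h1 h2 ?_
    intro m
    have := rkf_mono M (F m) hT h
    gcongr
  exact_mod_cast h3

theorem drk_submod {M : Matroid α} (hE : M.E = univ) (hM : Equivar M G)
    (hG : LeftInv G) {F : ℕ → Finset G} (hF : Folner F) {S T : Set α} (hS : S.Finite)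
    (hT : T.Finite) : drk M F (S ∪ T) + drk M F (S ∩ T) ≤ drk M F S + drk M F T := by
  have h1 := (drk_spec hE hM hG hF (hS.union hT)).add
    (drk_spec hE hM hG hF (hS.subset (inter_subset_left (t := T))))
  have h2 := (drk_spec hE hM hG hF hS).add (drk_spec hE hM hG hF hT)
  have h3 : ((drk M F (S ∪ T) : ℕ) : ℝ) + ((drk M F (S ∩ T) : ℕ) : ℝ) ≤
      ((drk M F S : ℕ) : ℝ) + ((drk M F T : ℕ) : ℝ) := by
    refine le_of_tendsto_of_tendsto' h1 h2 ?_
    intro m
    have := rkf_submod M (F m) hS hT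
    rw [← add_div, ← add_div]
    have h4 : ((rkf M (F m) (S ∪ T) : ℕ) : ℝ) + ((rkf M (F m) (S ∩ T) : ℕ) : ℝ) ≤
        ((rkf M (F m) S : ℕ) : ℝ) + ((rkf M (F m) T : ℕ) : ℝ) := by exact_mod_cast this
    exact div_le_div_of_nonneg_right h4 (by positivity)
  exact_mod_cast h3

open Classical in
/-- the rank system of a finite set `E` -/
noncomputable def rankSys (M : Matroid α) (hE : M.E = univ) (hM : Equivar M G)
    (hG : LeftInv G) (F : ℕ → Finset G) (hF : Folner F) (E : Set α) : RankSys E where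
  rk S := drk M F (Subtype.val '' (S : Set E))
  rk_empty := by
    have h := (drk_spec hE hM hG hF (S := (Subtype.val '' ((∅ : Finset E) : Set E)))
      (by simp)).unique (e := 0) (by simpa using isRk_empty M F)
    exact h
  rk_insert_le v S := by
    rw [Finset.coe_insert, image_insert_eq]
    have hS : (Subtype.val '' (S : Set E)).Finite := (S.finite_toSet).image _
    by_cases hv : (v : α) ∈ Cl M G (Subtype.val '' (S : Set E))
    · rw [drk_insert_dep hE hM hG hF hS hv]
      omega
    · rw [drk_insert_indep hE hM hG hF hS hv]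
  rk_mono h := drk_mono hE hM hG hF ((Finset.finite_toSet _).image _)
    (image_mono (by exact_mod_cast h))
  rk_submod S T := by
    rw [Finset.coe_union, Finset.coe_inter, image_union,
      image_inter Subtype.val_injective]
    exact drk_submod hE hM hG hF ((Finset.finite_toSet _).image _) ((Finset.finite_toSet _).image _)

open Classical in
theorem rankSys_inCl (M : Matroid α) (hE : M.E = univ) (hM : Equivar M G)
    (hG : LeftInv G) (F : ℕ → Finset G) (hF : Folner F) (E : Set α) (S : Finset E) (v : E) :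
    (rankSys M hE hM hG F hF E).InCl S v ↔ (v : α) ∈ Cl M G (Subtype.val '' (S : Set E)) := by
  unfold RankSys.InCl rankSys
  simp only
  rw [Finset.coe_insert, image_insert_eq]
  exact drk_mem_Cl_iff hE hM hG hF ((S.finite_toSet).image _)

end MFLB
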